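import Pool.Agent.Lib_helper66.K4M.G0a

/-!
Divisibility of the group of points of an elliptic curve over an algebraically closed field of
characteristic zero, and the number of its `k`-torsion points.
-/

set_option linter.unusedSectionVars false

namespace K4M

open WeierstrassCurve.Affine Polynomial

variable {F : Type*} [Field F] [DecidableEq F] {W : WeierstrassCurve.Affine F}

/-- `(Φ_n(x) : ΨSq_n(x))` is the abscissa of `nP`, for every point `P ≠ 0` -/
theorem mul_x [IsAlgClosed F] [CharZero F] (hΔ : W.Δ ≠ 0) {P : W.Point} (hP : P ≠ 0) (n : ℕ) :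
    ∃ μ : F, μ ≠ 0 ∧ (WeierstrassCurve.Φ W (n : ℤ)).eval (xc P) = μ * (xv (n • P)).1 ∧
      (WeierstrassCurve.ΨSq W (n : ℤ)).eval (xc P) = μ * (xv (n • P)).2 := by
  suffices h : ∀ n : ℕ, (∃ μ : F, μ ≠ 0 ∧
      (WeierstrassCurve.Φ W (n : ℤ)).eval (xc P) = μ * (xv (n • P)).1 ∧
      (WeierstrassCurve.ΨSq W (n : ℤ)).eval (xc P) = μ * (xv (n • P)).2) ∧
      (∃ μ : F, μ ≠ 0 ∧
      (WeierstrassCurve.Φ W ((n + 1 : ℕ) : ℤ)).eval (xc P) = μ * (xv ((n + 1) • P)).1 ∧
      (WeierstrassCurve.ΨSq W ((n + 1 : ℕ) : ℤ)).eval (xc P) = μ * (xv ((n + 1) • P)).2) from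
    (h n).1
  intro n
  induction n with
  | zero =>
    refine ⟨⟨1, one_ne_zero, ?_, ?_⟩, ⟨1, one_ne_zero, ?_, ?_⟩⟩
    · rw [zero_smul]
      show (WeierstrassCurve.Φ W 0).eval (xc P) = 1 * 1
      rw [WeierstrassCurve.Φ_zero, eval_one, one_mul]
    · rw [zero_smul]
      show (WeierstrassCurve.ΨSq W 0).eval (xc P) = 1 * 0
      rw [WeierstrassCurve.ΨSq_zero, eval_zero, mul_zero]
    · rw [zero_add, one_smul, xv_of_ne hP]
      show (WeierstrassCurve.Φ W 1).eval (xc P) = 1 * xc P
      rw [WeierstrassCurve.Φ_one, eval_X, one_mul]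
    · rw [zero_add, one_smul, xv_of_ne hP]
      show (WeierstrassCurve.ΨSq W 1).eval (xc P) = 1 * 1
      rw [WeierstrassCurve.ΨSq_one, eval_one, one_mul]
  | succ n ih =>
    refine ⟨ih.2, ?_⟩
    obtain ⟨⟨m0, h0, p0, o0⟩, ⟨m1, h1, p1, o1⟩⟩ := ih
    obtain ⟨l, hl, hrel⟩ := pt_rel hΔ ((n + 1) • P) P hP
    have a1 : (n + 1) • P + P = (n + 1 + 1) • P := by
      rw [add_smul (n + 1) 1 P, one_smul]
    have a2 : (n + 1) • P - P = n • P := by rw [add_smul, one_smul, add_sub_cancel_right]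
    rw [a1, a2] at hrel
    set v := xv ((n + 1 + 1) • P) with hv
    set v' := xv (n • P) with hv'
    set A := (WeierstrassCurve.ΨSq W ((n + 1 + 1 : ℕ) : ℤ)).eval (xc P) with hA
    set B := (WeierstrassCurve.Φ W ((n + 1 + 1 : ℕ) : ℤ)).eval (xc P) with hB
    have key : ∀ X0 : F, (X0 * A - B) * (m0 * (X0 * v'.2 - v'.1)) =
        m1 ^ 2 * l * (X0 * v.2 - v.1) * (X0 * v'.2 - v'.1) := by
      intro X0
      have s := star hΔ n (xc P) X0
      rw [p0, o0, p1, o1, NNw_smul, hrel X0] at s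
      linear_combination s
    have hne : v' ≠ (0, 0) := by
      rw [hv']
      by_cases h : n • P = 0
      · rw [h]
        show ((1, 0) : F × F) ≠ (0, 0)
        intro hh
        exact one_ne_zero (Prod.mk.inj hh).1
      · rw [xv_of_ne h]
        intro hh
        exact one_ne_zero (Prod.mk.inj hh).2
    -- cancel
    have hp2 : (C v'.2 * X - C v'.1 : F[X]) ≠ 0 := by
      intro h
      apply hne
      have c0 := congrArg (fun p => coeff p 0) h
      have c1 := congrArg (fun p => coeff p 1) h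
      simp at c0 c1
      exact Prod.ext c0 c1
    have hpoly : (C m0 * (C A * X - C B) - C (m1 ^ 2 * l) * (C v.2 * X - C v.1) : F[X]) *
        (C v'.2 * X - C v'.1) = 0 := by
      apply Polynomial.funext
      intro X0
      simp only [eval_mul, eval_sub, eval_C, eval_X, eval_zero]
      linear_combination key X0
    have h3 := (mul_eq_zero.mp hpoly).resolve_right hp2
    have c0 := congrArg (fun p => coeff p 0) h3
    have c1 := congrArg (fun p => coeff p 1) h3
    simp only [coeff_sub, coeff_C_mul, coeff_X_zero, coeff_C_zero, coeff_zero] at c0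
    simp only [coeff_sub, coeff_C_mul, coeff_X_one, coeff_zero] at c1
    rw [coeff_C_of_ne_zero one_ne_zero, coeff_C_of_ne_zero one_ne_zero] at c1
    refine ⟨m1 ^ 2 * l / m0, div_ne_zero (mul_ne_zero (pow_ne_zero 2 h1) hl) h0, ?_, ?_⟩
    · rw [div_mul_eq_mul_div, eq_div_iff h0]
      linear_combination -c0
    · rw [div_mul_eq_mul_div, eq_div_iff h0]
      linear_combination c1

/-- `Φ_n` and `ΨSq_n` have no common root -/
lemma no_common [IsAlgClosed F] [CharZero F] (hΔ : W.Δ ≠ 0) (n : ℕ) (x : F)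
    (h1 : (WeierstrassCurve.Φ W (n : ℤ)).eval x = 0)
    (h2 : (WeierstrassCurve.ΨSq W (n : ℤ)).eval x = 0) : False := by
  obtain ⟨P, hP, rfl⟩ := exists_pt hΔ x
  obtain ⟨μ, hμ, e1, e2⟩ := mul_x hΔ hP n
  rw [h1] at e1
  rw [h2] at e2
  have v1 := (mul_eq_zero.mp e1.symm).resolve_left hμ
  have v2 := (mul_eq_zero.mp e2.symm).resolve_left hμ
  by_cases h : n • P = 0
  · rw [h] at v1
    exact one_ne_zero v1
  · rw [xv_of_ne h] at v2
    exact one_ne_zero v2

/-- the fibres of the multiplication by `n` -/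
lemma mul_eq_iff [IsAlgClosed F] [CharZero F] (hΔ : W.Δ ≠ 0) {P Q : W.Point} (hP : P ≠ 0)
    (hQ : Q ≠ 0) (n : ℕ) : (n • P = Q ∨ n • P = -Q) ↔
      (WeierstrassCurve.Φ W (n : ℤ)).eval (xc P) =
        xc Q * (WeierstrassCurve.ΨSq W (n : ℤ)).eval (xc P) := by
  obtain ⟨μ, hμ, e1, e2⟩ := mul_x hΔ hP n
  rw [e1, e2]
  constructor
  · intro h
    have hx : xv (n • P) = (xc Q, 1) := by
      rcases h with h | h
      · rw [h, xv_of_ne hQ]
      · rw [h, xv_neg', xv_of_ne hQ]
    rw [hx]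
    ring
  · intro h
    have h' : (xv (n • P)).1 = xc Q * (xv (n • P)).2 := by
      apply mul_left_cancel₀ hμ
      rw [h]; ring
    have : dx (n • P) Q = 0 := by
      unfold dx
      rw [h', xv_of_ne hQ]
      ring
    exact dx_eq_zero_iff.mp this

/-- **Divisibility.** -/
theorem k_div [IsAlgClosed F] [CharZero F] (hΔ : W.Δ ≠ 0) {k : ℕ} (hk : k ≠ 0) (Q : W.Point) :
    ∃ P : W.Point, k • P = Q := by
  by_cases hQ : Q = 0
  · exact ⟨0, by rw [hQ, smul_zero]⟩
  let f : F[X] := WeierstrassCurve.Φ W (k : ℤ) - C (xc Q) * WeierstrassCurve.ΨSq W (k : ℤ)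
  have hdeg : f.natDegree = k ^ 2 := by
    have h1 : (C (xc Q) * WeierstrassCurve.ΨSq W (k : ℤ)).natDegree <
        (WeierstrassCurve.Φ W (k : ℤ)).natDegree := by
      refine lt_of_le_of_lt (natDegree_C_mul_le _ _) ?_
      refine lt_of_le_of_lt (WeierstrassCurve.natDegree_ΨSq_le W (k : ℤ)) ?_
      rw [WeierstrassCurve.natDegree_Φ, Int.natAbs_natCast]
      have : 0 < k ^ 2 := by positivity
      omega
    show (WeierstrassCurve.Φ W (k : ℤ) - C (xc Q) * WeierstrassCurve.ΨSq W (k : ℤ)).natDegree = _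
    rw [natDegree_sub_eq_left_of_natDegree_lt h1, WeierstrassCurve.natDegree_Φ,
      Int.natAbs_natCast]
  have hd0 : f.degree ≠ 0 := by
    intro h
    have := natDegree_eq_of_degree_eq_some (n := 0) h
    rw [hdeg] at this
    have h2 : 0 < k ^ 2 := by positivity
    omega
  obtain ⟨x, hx⟩ := IsAlgClosed.exists_root f hd0
  have hx' : (WeierstrassCurve.Φ W (k : ℤ)).eval x =
      xc Q * (WeierstrassCurve.ΨSq W (k : ℤ)).eval x := by
    have : f.eval x = 0 := hx
    simp only [f, eval_sub, eval_mul, eval_C] at this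
    linear_combination this
  obtain ⟨P, hP, rfl⟩ := exists_pt hΔ x
  rcases (mul_eq_iff hΔ hP hQ k).mpr hx' with h | h
  · exact ⟨P, h⟩
  · exact ⟨-P, by rw [smul_neg, h, neg_neg]⟩

section Card

/-- the polynomial of the fibre of the multiplication by `k` over the abscissa `c` -/
noncomputable def fc (W : WeierstrassCurve.Affine F) (k : ℕ) (c : F) : F[X] :=
  WeierstrassCurve.Φ W (k : ℤ) - C c * WeierstrassCurve.ΨSq W (k : ℤ)

lemma fc_natDegree (k : ℕ) (hk : k ≠ 0) (c : F) : (fc W k c).natDegree = k ^ 2 := by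
  have h1 : (C c * WeierstrassCurve.ΨSq W (k : ℤ)).natDegree <
      (WeierstrassCurve.Φ W (k : ℤ)).natDegree := by
    refine lt_of_le_of_lt (natDegree_C_mul_le _ _) ?_
    refine lt_of_le_of_lt (WeierstrassCurve.natDegree_ΨSq_le W (k : ℤ)) ?_
    rw [WeierstrassCurve.natDegree_Φ, Int.natAbs_natCast]
    have : 0 < k ^ 2 := by positivity
    omega
  unfold fc
  rw [natDegree_sub_eq_left_of_natDegree_lt h1, WeierstrassCurve.natDegree_Φ, Int.natAbs_natCast]

/-- the Wronskian -/
noncomputable def wr (W : WeierstrassCurve.Affine F) (k : ℕ) : F[X] :=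
  derivative (WeierstrassCurve.Φ W (k : ℤ)) * WeierstrassCurve.ΨSq W (k : ℤ) -
    WeierstrassCurve.Φ W (k : ℤ) * derivative (WeierstrassCurve.ΨSq W (k : ℤ))

lemma wr_ne_zero [CharZero F] (k : ℕ) (hk : 2 ≤ k) : wr W k ≠ 0 := by
  obtain ⟨n, hn⟩ : ∃ n, k ^ 2 = n + 2 := ⟨k ^ 2 - 2, by nlinarith [Nat.sub_add_cancel (show 2 ≤ k ^ 2 by nlinarith)]⟩
  have dP : (WeierstrassCurve.Φ W (k : ℤ)).natDegree ≤ n + 2 := by
    rw [← hn]; exact le_of_eq (by rw [WeierstrassCurve.natDegree_Φ, Int.natAbs_natCast])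
  have dO : (WeierstrassCurve.ΨSq W (k : ℤ)).natDegree ≤ n + 1 := by
    refine (WeierstrassCurve.natDegree_ΨSq_le W (k : ℤ)).trans ?_
    rw [Int.natAbs_natCast, hn]
    omega
  have cP : (WeierstrassCurve.Φ W (k : ℤ)).coeff (n + 2) = 1 := by
    have := WeierstrassCurve.coeff_Φ W (k : ℤ)
    rwa [Int.natAbs_natCast, hn] at this
  have cO : (WeierstrassCurve.ΨSq W (k : ℤ)).coeff (n + 1) = (k : F) ^ 2 := by
    have := WeierstrassCurve.coeff_ΨSq W (k : ℤ)
    rw [Int.natAbs_natCast, hn] at this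
    exact_mod_cast this
  have dP' : (derivative (WeierstrassCurve.Φ W (k : ℤ))).natDegree ≤ n + 1 :=
    (natDegree_derivative_le _).trans (by omega)
  have dO' : (derivative (WeierstrassCurve.ΨSq W (k : ℤ))).natDegree ≤ n :=
    (natDegree_derivative_le _).trans (by omega)
  have hc : (wr W k).coeff (n + 1 + (n + 1)) = (k : F) ^ 2 := by
    unfold wr
    rw [coeff_sub, coeff_mul_add_eq_of_natDegree_le dP' dO,
      show n + 1 + (n + 1) = n + 2 + n by ring, coeff_mul_add_eq_of_natDegree_le dP dO',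
      coeff_derivative, coeff_derivative, cP, cO]
    push_cast
    ring
  intro h
  rw [h, coeff_zero] at hc
  have : (k : F) ≠ 0 := Nat.cast_ne_zero.mpr (by omega)
  exact pow_ne_zero 2 this hc.symm

/-- **The number of `k`-torsion points.** -/
theorem card_tors [IsAlgClosed F] [CharZero F] (hΔ : W.Δ ≠ 0) {k : ℕ} (hk : k ≠ 0) :
    Nat.card {P : W.Point // k • P = 0} = k ^ 2 := by
  classical
  rcases Nat.lt_or_ge k 2 with hk2 | hk2
  · have : k = 1 := by omega
    subst this
    have : Unique {P : W.Point // 1 • P = 0} :=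
      ⟨⟨⟨0, smul_zero 1⟩⟩, fun P => Subtype.ext (by have := P.2; rwa [one_smul] at this)⟩
    rw [Nat.card_unique]
    rfl
  -- a good abscissa
  let bad : Finset F := (wr W k).roots.toFinset.image (fun x =>
      (WeierstrassCurve.Φ W (k : ℤ)).eval x / (WeierstrassCurve.ΨSq W (k : ℤ)).eval x) ∪
    (WeierstrassCurve.Ψ₂Sq W).roots.toFinset
  obtain ⟨c, hc⟩ := Infinite.exists_notMem_finset bad
  have hc1 : ∀ x : F, (wr W k).eval x = 0 →
      (WeierstrassCurve.Φ W (k : ℤ)).eval x / (WeierstrassCurve.ΨSq W (k : ℤ)).eval x ≠ c := by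
    intro x hx h
    apply hc
    refine Finset.mem_union_left _ (Finset.mem_image.mpr ⟨x, ?_, h⟩)
    rw [Multiset.mem_toFinset, mem_roots (wr_ne_zero k hk2)]
    exact hx
  have hc2 : (WeierstrassCurve.Ψ₂Sq W).eval c ≠ 0 := by
    intro h
    apply hc
    refine Finset.mem_union_right _ ?_
    rw [Multiset.mem_toFinset, mem_roots (WeierstrassCurve.Ψ₂Sq_ne_zero W (by norm_num))]
    exact h
  obtain ⟨Q, hQ, hQc⟩ := exists_pt hΔ c
  have hQ2 : Q ≠ -Q := by
    intro h
    apply hc2
    rw [← hQc, ← ps_sq hQ, (ps_eq_zero_iff hQ).mpr (by nth_rw 2 [h]; exact add_neg_cancel Q)]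
    ring
  -- the roots of `f_c` are distinct
  have hf0 : fc W k c ≠ 0 := by
    intro h
    have := fc_natDegree (W := W) k hk c
    rw [h, natDegree_zero] at this
    have h2 : 0 < k ^ 2 := by positivity
    omega
  have hnodup : (fc W k c).roots.Nodup := by
    rw [Multiset.nodup_iff_count_le_one]
    intro x
    rw [count_roots]
    by_contra hcon
    push Not at hcon
    obtain ⟨r1, r2⟩ := (one_lt_rootMultiplicity_iff_isRoot hf0).mp hcon
    have e1 : (fc W k c).eval x = 0 := r1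
    have e2 : (derivative (fc W k c)).eval x = 0 := r2
    unfold fc at e1 e2
    simp only [derivative_sub, derivative_mul, derivative_C, zero_mul, zero_add, eval_sub,
      eval_mul, eval_C] at e1 e2
    have hO : (WeierstrassCurve.ΨSq W (k : ℤ)).eval x ≠ 0 := by
      intro h0
      rw [h0, mul_zero, sub_zero] at e1
      exact no_common hΔ k x e1 h0
    refine hc1 x ?_ ?_
    · unfold wr
      simp only [eval_sub, eval_mul]
      linear_combination (WeierstrassCurve.ΨSq W (k : ℤ)).eval x * e2 -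
        (derivative (WeierstrassCurve.ΨSq W (k : ℤ))).eval x * e1
    · rw [div_eq_iff hO]
      linear_combination e1
  have hcard : (fc W k c).roots.toFinset.card = k ^ 2 := by
    rw [Multiset.toFinset_card_of_nodup hnodup,
      splits_iff_card_roots.mp (IsAlgClosed.splits (fc W k c)), fc_natDegree k hk]
  -- a base point of the fibre
  obtain ⟨P0, hP0⟩ := k_div hΔ hk Q
  have e1 : {P : W.Point // k • P = 0} ≃ {P : W.Point // k • P = Q} :=
    { toFun := fun P => ⟨P.1 + P0, by rw [smul_add, P.2, zero_add, hP0]⟩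
      invFun := fun P => ⟨P.1 - P0, by rw [smul_sub, P.2, hP0, sub_self]⟩
      left_inv := fun P => Subtype.ext (by simp)
      right_inv := fun P => Subtype.ext (by simp) }
  have hne : ∀ P : W.Point, k • P = Q → P ≠ 0 := by
    intro P h h0
    rw [h0, smul_zero] at h
    exact hQ h.symm
  have hroot : ∀ P : W.Point, P ≠ 0 →
      ((k • P = Q ∨ k • P = -Q) ↔ xc P ∈ (fc W k c).roots.toFinset) := by
    intro P hP
    rw [mul_eq_iff hΔ hP hQ, hQc, Multiset.mem_toFinset, mem_roots hf0, IsRoot.def]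
    unfold fc
    rw [eval_sub, eval_mul, eval_C, sub_eq_zero]
  let φ : {P : W.Point // k • P = Q} → (fc W k c).roots.toFinset := fun P =>
    ⟨xc P.1, (hroot P.1 (hne P.1 P.2)).mp (Or.inl P.2)⟩
  have hbij : Function.Bijective φ := by
    constructor
    · rintro ⟨P, hP⟩ ⟨P', hP'⟩ h
      have hx : xc P = xc P' := congrArg Subtype.val h
      have hd : dx P P' = 0 := by
        unfold dx
        rw [xv_of_ne (hne P hP), xv_of_ne (hne P' hP'), hx]
        ring
      rcases dx_eq_zero_iff.mp hd with h1 | h1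
      · exact Subtype.ext h1
      · exfalso
        apply hQ2
        calc Q = k • P := hP.symm
          _ = -(k • P') := by rw [h1, smul_neg]
          _ = -Q := by rw [hP']
    · rintro ⟨x, hx⟩
      obtain ⟨P, hP, hPx⟩ := exists_pt hΔ x
      have := (hroot P hP).mpr (by rw [hPx]; exact hx)
      rcases this with h | h
      · exact ⟨⟨P, h⟩, Subtype.ext hPx⟩
      · refine ⟨⟨-P, by rw [smul_neg, h, neg_neg]⟩, Subtype.ext ?_⟩
        show xc (-P) = x
        rw [← hPx]
        unfold xc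
        rw [xv_neg']
  rw [Nat.card_congr e1, Nat.card_congr (Equiv.ofBijective φ hbij), Nat.card_eq_fintype_card,
    Fintype.card_coe, hcard]

end Card

end K4M
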