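import Mathlib

/-!
Order eleven, the closed elements: pure linear algebra.
-/

set_option linter.unusedVariables false

namespace Pool.Agent.K4Closed

variable {H : Type*} [AddCommGroup H] [Module ℚ H]

lemma lin25 (x : Fin 5 → Fin 5 → H) (ξ : H)
    (a1 : x 0 1 = x 0 0)
    (a2 : x 0 2 = x 0 1 + ξ)
    (a0 : x 1 2 = x 1 0 + ξ)
    (a3 : x 1 3 = x 1 2)
    (a4 : x 2 3 = x 2 0 + ξ)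
    (a5 : x 2 4 = x 2 3 - ξ)
    (a6 : x 3 2 = x 3 1 - ξ)
    (a7 : x 3 4 = x 3 2)
    (a8 : x 4 3 = x 4 1)
    (a9 : x 4 4 = x 4 3 + ξ)
    (r1 : x 0 0 - x 0 3 + x 1 1 - x 1 0 + (1 / 3 : ℚ) • ξ = 0)
    (r2 : - x 3 0 + x 3 2 + x 0 2 - x 0 4 + (1 / 3 : ℚ) • ξ = 0)
    (r3 : - x 2 1 + x 2 4 + x 4 4 - x 4 0 + (1 / 3 : ℚ) • ξ = 0)
    (r4 : x 3 1 - x 3 3 - x 4 2 + x 4 1 + (1 / 3 : ℚ) • ξ = 0)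
    (r5 : - x 2 2 + x 2 3 - x 1 3 + x 1 4 + (1 / 3 : ℚ) • ξ = 0)
    (r6 : x 0 2 - x 0 4 - x 4 0 + x 4 2 - x 1 4 + x 1 1 + (2 / 3 : ℚ) • ξ = 0)
    (c : Fin 5 → Fin 5 → ℚ)
    (E123 : c 0 0 + c 0 1 + c 0 2 - c 1 1 + c 3 0 = 0) 
    (E124 : c 0 3 + c 1 1 - c 2 1 + c 4 0 = 0) 
    (E125 : c 0 4 + c 2 1 - c 3 0 - c 4 0 = 0) 
    (E134 : -c 0 3 + c 1 0 + c 1 2 + c 1 3 - c 2 2 = 0) 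
    (E135 : -c 0 4 + c 1 4 + c 2 2 + c 3 0 = 0) 
    (E145 : -c 1 4 + c 2 0 + c 2 3 + c 2 4 + c 4 0 = 0) 
    (E234 : c 0 3 + c 1 1 + c 3 3 - c 4 2 = 0) 
    (E235 : c 0 4 + c 3 1 + c 3 2 + c 3 4 + c 4 2 = 0) 
    (E245 : c 2 1 + c 3 3 + c 4 1 + c 4 3 + c 4 4 = 0) 
    (E345 : c 1 4 + c 2 2 - c 3 3 + c 4 2 = 0) 
    : ∃ q : ℚ, ∑ i, ∑ k, c i k • x i k = q • ξ := by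
  have s01 : x 0 0 = (1 : ℚ) • x 0 3 + (1 : ℚ) • x 1 0 + (-1 : ℚ) • x 1 1 + (-1 / 3 : ℚ) • ξ := by
    linear_combination (norm := module) (1 : ℚ) • r1
  have s02 : x 0 1 = (1 : ℚ) • x 0 3 + (1 : ℚ) • x 1 0 + (-1 : ℚ) • x 1 1 + (-1 / 3 : ℚ) • ξ := by
    rw [a1, s01]
  have s03 : x 0 2 = (1 : ℚ) • x 0 3 + (1 : ℚ) • x 1 0 + (-1 : ℚ) • x 1 1 + (2 / 3 : ℚ) • ξ := by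
    rw [a2, s02]; module
  have s13 : x 1 2 = (1 : ℚ) • x 1 0 + (1 : ℚ) • ξ := by
    rw [a0]; module
  have s14 : x 1 3 = (1 : ℚ) • x 1 0 + (1 : ℚ) • ξ := by
    rw [a3, s13]
  have s33 : x 3 2 = (-1 : ℚ) • x 0 3 + (1 : ℚ) • x 0 4 + (-1 : ℚ) • x 1 0 + (1 : ℚ) • x 1 1 + (1 : ℚ) • x 3 0 + (-1 : ℚ) • ξ := by
    rw [s03] at r2; linear_combination (norm := module) (1 : ℚ) • r2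
  have s32 : x 3 1 = (-1 : ℚ) • x 0 3 + (1 : ℚ) • x 0 4 + (-1 : ℚ) • x 1 0 + (1 : ℚ) • x 1 1 + (1 : ℚ) • x 3 0 := by
    rw [s33] at a6; linear_combination (norm := module) (-1 : ℚ) • a6
  have s35 : x 3 4 = (-1 : ℚ) • x 0 3 + (1 : ℚ) • x 0 4 + (-1 : ℚ) • x 1 0 + (1 : ℚ) • x 1 1 + (1 : ℚ) • x 3 0 + (-1 : ℚ) • ξ := by
    rw [a7, s33]
  have s24 : x 2 3 = (1 : ℚ) • x 1 0 + (-1 : ℚ) • x 1 4 + (1 : ℚ) • x 2 2 + (2 / 3 : ℚ) • ξ := by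
    rw [s14] at r5; linear_combination (norm := module) (1 : ℚ) • r5
  have s21 : x 2 0 = (1 : ℚ) • x 1 0 + (-1 : ℚ) • x 1 4 + (1 : ℚ) • x 2 2 + (-1 / 3 : ℚ) • ξ := by
    rw [s24] at a4; linear_combination (norm := module) (-1 : ℚ) • a4
  have s25 : x 2 4 = (1 : ℚ) • x 1 0 + (-1 : ℚ) • x 1 4 + (1 : ℚ) • x 2 2 + (-1 / 3 : ℚ) • ξ := by
    rw [a5, s24]; module
  have s45 : x 4 4 = (-1 : ℚ) • x 1 0 + (1 : ℚ) • x 1 4 + (1 : ℚ) • x 2 1 + (-1 : ℚ) • x 2 2 + (1 : ℚ) • x 4 0 := by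
    rw [s25] at r3; linear_combination (norm := module) (1 : ℚ) • r3
  have s44 : x 4 3 = (-1 : ℚ) • x 1 0 + (1 : ℚ) • x 1 4 + (1 : ℚ) • x 2 1 + (-1 : ℚ) • x 2 2 + (1 : ℚ) • x 4 0 + (-1 : ℚ) • ξ := by
    rw [s45] at a9; linear_combination (norm := module) (-1 : ℚ) • a9
  have s42 : x 4 1 = (-1 : ℚ) • x 1 0 + (1 : ℚ) • x 1 4 + (1 : ℚ) • x 2 1 + (-1 : ℚ) • x 2 2 + (1 : ℚ) • x 4 0 + (-1 : ℚ) • ξ := by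
    rw [← a8, s44]
  have s43 : x 4 2 = (-1 : ℚ) • x 0 3 + (1 : ℚ) • x 0 4 + (-1 : ℚ) • x 1 0 + (1 : ℚ) • x 1 4 + (1 : ℚ) • x 4 0 + (-4 / 3 : ℚ) • ξ := by
    rw [s03] at r6; linear_combination (norm := module) (1 : ℚ) • r6
  have s34 : x 3 3 = (-1 : ℚ) • x 1 0 + (1 : ℚ) • x 1 1 + (1 : ℚ) • x 2 1 + (-1 : ℚ) • x 2 2 + (1 : ℚ) • x 3 0 + (2 / 3 : ℚ) • ξ := by
    rw [s32, s43, s42] at r4; linear_combination (norm := module) (-1 : ℚ) • r4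
  have L04 : (1 : ℚ) * c 0 0 + (1 : ℚ) * c 0 1 + (1 : ℚ) * c 0 2 + (1 : ℚ) * c 0 3 + (-1 : ℚ) * c 3 1 + (-1 : ℚ) * c 3 2 + (-1 : ℚ) * c 3 4 + (-1 : ℚ) * c 4 2 = 0 := by
    linarith
  have L05 : (1 : ℚ) * c 0 4 + (1 : ℚ) * c 3 1 + (1 : ℚ) * c 3 2 + (1 : ℚ) * c 3 4 + (1 : ℚ) * c 4 2 = 0 := by
    linarith
  have L11 : (1 : ℚ) * c 0 0 + (1 : ℚ) * c 0 1 + (1 : ℚ) * c 0 2 + (1 : ℚ) * c 1 0 + (1 : ℚ) * c 1 2 + (1 : ℚ) * c 1 3 + (1 : ℚ) * c 2 0 + (1 : ℚ) * c 2 3 + (1 : ℚ) * c 2 4 + (-1 : ℚ) * c 3 1 + (-1 : ℚ) * c 3 2 + (-1 : ℚ) * c 3 3 + (-1 : ℚ) * c 3 4 + (-1 : ℚ) * c 4 1 + (-1 : ℚ) * c 4 2 + (-1 : ℚ) * c 4 3 + (-1 : ℚ) * c 4 4 = 0 := by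
    linarith
  have L12 : (-1 : ℚ) * c 0 0 + (-1 : ℚ) * c 0 1 + (-1 : ℚ) * c 0 2 + (1 : ℚ) * c 1 1 + (1 : ℚ) * c 3 1 + (1 : ℚ) * c 3 2 + (1 : ℚ) * c 3 3 + (1 : ℚ) * c 3 4 = 0 := by
    linarith
  have L15 : (1 : ℚ) * c 1 4 + (-1 : ℚ) * c 2 0 + (-1 : ℚ) * c 2 3 + (-1 : ℚ) * c 2 4 + (1 : ℚ) * c 4 1 + (1 : ℚ) * c 4 2 + (1 : ℚ) * c 4 3 + (1 : ℚ) * c 4 4 = 0 := by
    linarith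
  have L22 : (1 : ℚ) * c 2 1 + (1 : ℚ) * c 3 3 + (1 : ℚ) * c 4 1 + (1 : ℚ) * c 4 3 + (1 : ℚ) * c 4 4 = 0 := by
    linarith
  have L23 : (1 : ℚ) * c 2 0 + (1 : ℚ) * c 2 2 + (1 : ℚ) * c 2 3 + (1 : ℚ) * c 2 4 + (-1 : ℚ) * c 3 3 + (-1 : ℚ) * c 4 1 + (-1 : ℚ) * c 4 3 + (-1 : ℚ) * c 4 4 = 0 := by
    linarith
  have L31 : (1 : ℚ) * c 3 0 + (1 : ℚ) * c 3 1 + (1 : ℚ) * c 3 2 + (1 : ℚ) * c 3 3 + (1 : ℚ) * c 3 4 = 0 := by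
    linarith
  have L41 : (1 : ℚ) * c 4 0 + (1 : ℚ) * c 4 1 + (1 : ℚ) * c 4 2 + (1 : ℚ) * c 4 3 + (1 : ℚ) * c 4 4 = 0 := by
    linarith
  refine ⟨(-1 / 3 : ℚ) * c 0 0 + (-1 / 3 : ℚ) * c 0 1 + (2 / 3 : ℚ) * c 0 2 + (1 : ℚ) * c 1 2 + (1 : ℚ) * c 1 3 + (-1 / 3 : ℚ) * c 2 0 + (2 / 3 : ℚ) * c 2 3 + (-1 / 3 : ℚ) * c 2 4 + (-1 : ℚ) * c 3 2 + (2 / 3 : ℚ) * c 3 3 + (-1 : ℚ) * c 3 4 + (-1 : ℚ) * c 4 1 + (-4 / 3 : ℚ) * c 4 2 + (-1 : ℚ) * c 4 3, ?_⟩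
  simp only [Fin.sum_univ_five]
  rw [s01, s02, s03, s13, s14, s33, s32, s35, s24, s21, s25, s45, s44, s42, s43, s34]
  trans ((1 : ℚ) * c 0 0 + (1 : ℚ) * c 0 1 + (1 : ℚ) * c 0 2 + (1 : ℚ) * c 0 3 + (-1 : ℚ) * c 3 1 + (-1 : ℚ) * c 3 2 + (-1 : ℚ) * c 3 4 + (-1 : ℚ) * c 4 2) • x 0 3 + ((1 : ℚ) * c 0 4 + (1 : ℚ) * c 3 1 + (1 : ℚ) * c 3 2 + (1 : ℚ) * c 3 4 + (1 : ℚ) * c 4 2) • x 0 4 + ((1 : ℚ) * c 0 0 + (1 : ℚ) * c 0 1 + (1 : ℚ) * c 0 2 + (1 : ℚ) * c 1 0 + (1 : ℚ) * c 1 2 + (1 : ℚ) * c 1 3 + (1 : ℚ) * c 2 0 + (1 : ℚ) * c 2 3 + (1 : ℚ) * c 2 4 + (-1 : ℚ) * c 3 1 + (-1 : ℚ) * c 3 2 + (-1 : ℚ) * c 3 3 + (-1 : ℚ) * c 3 4 + (-1 : ℚ) * c 4 1 + (-1 : ℚ) * c 4 2 + (-1 : ℚ) * c 4 3 + (-1 : ℚ) * c 4 4) • x 1 0 + ((-1 : ℚ) * c 0 0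 + (-1 : ℚ) * c 0 1 + (-1 : ℚ) * c 0 2 + (1 : ℚ) * c 1 1 + (1 : ℚ) * c 3 1 + (1 : ℚ) * c 3 2 + (1 : ℚ) * c 3 3 + (1 : ℚ) * c 3 4) • x 1 1 + ((1 : ℚ) * c 1 4 + (-1 : ℚ) * c 2 0 + (-1 : ℚ) * c 2 3 + (-1 : ℚ) * c 2 4 + (1 : ℚ) * c 4 1 + (1 : ℚ) * c 4 2 + (1 : ℚ) * c 4 3 + (1 : ℚ) * c 4 4) • x 1 4 + ((1 : ℚ) * c 2 1 + (1 : ℚ) * c 3 3 + (1 : ℚ) * c 4 1 + (1 : ℚ) * c 4 3 + (1 : ℚ) * c 4 4) • x 2 1 + ((1 : ℚ) * c 2 0 + (1 : ℚ) * c 2 2 + (1 : ℚ) * c 2 3 + (1 : ℚ) * c 2 4 + (-1 : ℚ) * c 3 3 + (-1 : ℚ) * c 4 1 + (-1 : ℚ) * c 4 3 + (-1 : ℚ) * c 4 4) • x 2 2 + ((1 : ℚ) * c 3 0 + (1 : ℚ) * c 3 1 + (1 : ℚ) * c 3 2 + (1 : ℚ) * c 3 3 + (1 : ℚ) * c 3 4) • x 3 0 + ((1 : ℚ) * c 4 0 + (1 : ℚ) * c 4 1 + (1 : ℚ) * c 4 2 + (1 : ℚ) * c 4 3 +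 (1 : ℚ) * c 4 4) • x 4 0 + ((-1 / 3 : ℚ) * c 0 0 + (-1 / 3 : ℚ) * c 0 1 + (2 / 3 : ℚ) * c 0 2 + (1 : ℚ) * c 1 2 + (1 : ℚ) * c 1 3 + (-1 / 3 : ℚ) * c 2 0 + (2 / 3 : ℚ) * c 2 3 + (-1 / 3 : ℚ) * c 2 4 + (-1 : ℚ) * c 3 2 + (2 / 3 : ℚ) * c 3 3 + (-1 : ℚ) * c 3 4 + (-1 : ℚ) * c 4 1 + (-4 / 3 : ℚ) * c 4 2 + (-1 : ℚ) * c 4 3) • ξ
  · module
  · rw [L04, L05, L11, L12, L15, L22, L23, L31, L41]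
    simp only [zero_smul, zero_add]

end Pool.Agent.K4Closed
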