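import Pool.Agent.Lib_helper66.K4M.Det3
import Pool.Agent.Lib_helper66.K4M.Lin25
import Pool.Agent.Lib_helper2.K4.Fin

/-!
Order eleven: every closed element of `T ⊗ W` is a multiple of `ξ(P,3P)`.
-/

set_option linter.unusedVariables false
set_option linter.unusedSimpArgs false

namespace Pool.Agent.K4Closed

open Pool.Agent.K4Fin
open scoped TensorProduct

variable {A B G H : Type*} [AddCommGroup A] [AddCommGroup B] [Module ℚ B]
  [AddCommGroup G] [Module ℚ G] [AddCommGroup H] [Module ℚ H]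

/-- The data of the calculus. -/
structure Dat (t : A → A → B) (g : A → G) (m : B →ₗ[ℚ] G →ₗ[ℚ] H) : Prop where
  swap : ∀ a b, t b a = - t a b
  rot : ∀ a b, t b (-a - b) = t a b
  even : ∀ a b, t (-a) (-b) = t a b
  zero : g 0 = 0
  geven : ∀ a, g (-a) = g a
  man : ManinSym (fun a b => m (t a b) (g b - g a))
  r4 : ∀ x y z w, x + y + z + w = 0 →
    m (t x y) (g w - g z) + m (t z w) (g y - g x) + m (t y z) (g x - g w) +
      m (t w x) (g z - g y) + (1 / 3 : ℚ) • (m (t x y) (g y - g x) + m (t y z) (g z - g y) +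
      m (t z w) (g w - g z) + m (t w x) (g x - g w) - (2 : ℚ) • m (t x z) (g z - g x) -
      (2 : ℚ) • m (t y w) (g w - g y)) = 0

namespace Dat

variable {t : A → A → B} {g : A → G} {m : B →ₗ[ℚ] G →ₗ[ℚ] H}

lemma comp {A' : Type*} [AddCommGroup A'] (D : Dat t g m) (f : A' →+ A) :
    Dat (fun a b => t (f a) (f b)) (fun a => g (f a)) m where
  swap a b := D.swap _ _
  rot a b := by simp only [map_sub, map_neg]; exact D.rot _ _
  even a b := by simp only [map_neg]; exact D.even _ _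
  zero := by simp only [map_zero]; exact D.zero
  geven a := by simp only [map_neg]; exact D.geven _
  man := D.man.comp f
  r4 x y z w h := D.r4 _ _ _ _ (by rw [← map_add, ← map_add, ← map_add, h, map_zero])

lemma self (D : Dat t g m) (a : A) : t a a = 0 := by
  have h := D.swap a a
  have h2 : (2 : ℚ) • t a a = 0 := by rw [two_smul]; nth_rw 1 [h]; abel
  exact (smul_eq_zero.mp h2).resolve_left (by norm_num)

lemma zero_left (D : Dat t g m) (a : A) : t 0 a = 0 := by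
  have h1 := D.rot a 0
  rw [sub_zero] at h1
  have h2 := D.even 0 a
  rw [neg_zero, h1] at h2
  have h3 := D.swap 0 a
  rw [h3] at h2
  have h4 : (2 : ℚ) • t 0 a = 0 := by rw [two_smul]; nth_rw 1 [← h2]; abel
  exact (smul_eq_zero.mp h4).resolve_left (by norm_num)

lemma rot' (D : Dat t g m) {a b c : A} (h : c = -a - b) : t b c = t a b := by
  rw [h]; exact D.rot a b

lemma even' (D : Dat t g m) {a b c d : A} (h : c = -a) (h' : d = -b) : t c d = t a b := by
  rw [h, h']; exact D.even a b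

lemma g' (D : Dat t g m) {a b : A} (h : a = -b) : g a = g b := by
  rw [h]; exact D.geven b

end Dat

section Z11

variable {t : ZMod 11 → ZMod 11 → B} {g : ZMod 11 → G} {m : B →ₗ[ℚ] G →ₗ[ℚ] H}

/-- the five classes of `t` -/
def TT (t : ZMod 11 → ZMod 11 → B) : Fin 5 → B := ![t 1 2, t 1 3, t 1 4, t 2 3, t 2 4]

/-- the five classes of `g` -/
def GG (g : ZMod 11 → G) : Fin 5 → G := ![g 1, g 2, g 3, g 4, g 5]

/-- the class `ξ(P,3P)` -/
def xi0 (t : ZMod 11 → ZMod 11 → B) (g : ZMod 11 → G) (m : B →ₗ[ℚ] G →ₗ[ℚ] H) : H :=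
  m (t 1 3) (g 3 - g 1)

theorem rels (D : Dat t g m) (c : Fin 5 → Fin 5 → ℚ)
    (E123 : c 0 0 + c 0 1 + c 0 2 - c 1 1 + c 3 0 = 0)
    (E124 : c 0 3 + c 1 1 - c 2 1 + c 4 0 = 0)
    (E125 : c 0 4 + c 2 1 - c 3 0 - c 4 0 = 0)
    (E134 : -c 0 3 + c 1 0 + c 1 2 + c 1 3 - c 2 2 = 0)
    (E135 : -c 0 4 + c 1 4 + c 2 2 + c 3 0 = 0)
    (E145 : -c 1 4 + c 2 0 + c 2 3 + c 2 4 + c 4 0 = 0)
    (E234 : c 0 3 + c 1 1 + c 3 3 - c 4 2 = 0)
    (E235 : c 0 4 + c 3 1 + c 3 2 + c 3 4 + c 4 2 = 0)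
    (E245 : c 2 1 + c 3 3 + c 4 1 + c 4 3 + c 4 4 = 0)
    (E345 : c 1 4 + c 2 2 - c 3 3 + c 4 2 = 0) :
    ∃ q : ℚ, ∑ i, ∑ k, c i k • m (TT t i) (GG g k) = q • xi0 t g m := by
  -- values of ξ
  have ev : ∀ a b : ZMod 11, m (t a b) (g b - g a) = q11 a b • xi0 t g m :=
    fun a b => eleven_aux D.man a b
  -- values of g
  have g6 : g 6 = g 5 := D.g' (by decide)
  have g7 : g 7 = g 4 := D.g' (by decide)
  have g8 : g 8 = g 3 := D.g' (by decide)
  have g9 : g 9 = g 2 := D.g' (by decide)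
  have g10 : g 10 = g 1 := D.g' (by decide)
  -- values of t
  have t28 : t 2 8 = t 1 2 := D.rot' (by decide)
  have t81 : t 8 1 = t 1 2 := by rw [D.rot' (a := 2) (b := 8) (by decide), t28]
  have t37 : t 3 7 = t 1 3 := D.rot' (by decide)
  have t71 : t 7 1 = t 1 3 := by rw [D.rot' (a := 3) (b := 7) (by decide), t37]
  have t46 : t 4 6 = t 1 4 := D.rot' (by decide)
  have t61 : t 6 1 = t 1 4 := by rw [D.rot' (a := 4) (b := 6) (by decide), t46]
  have t36 : t 3 6 = t 2 3 := D.rot' (by decide)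
  have t62 : t 6 2 = t 2 3 := by rw [D.rot' (a := 3) (b := 6) (by decide), t36]
  have t45 : t 4 5 = t 2 4 := D.rot' (by decide)
  have t52 : t 5 2 = t 2 4 := by rw [D.rot' (a := 4) (b := 5) (by decide), t45]
  have t16 : t 1 6 = - t 1 4 := by rw [D.swap 6 1, t61]
  have t25 : t 2 5 = - t 2 4 := by rw [D.swap 5 2, t52]
  have t31 : t 3 1 = - t 1 3 := D.swap 1 3
  have t42 : t 4 2 = - t 2 4 := D.swap 2 4
  have t63 : t 6 3 = - t 2 3 := by rw [D.swap 3 6, t36]
  have t58 : t 5 8 = - t 2 3 := by rw [D.even' (a := 6) (b := 3) (by decide) (by decide), t63]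
  have t69 : t 6 9 = t 2 4 := by rw [D.even' (a := 5) (b := 2) (by decide) (by decide), t52]
  have t64 : t 6 4 = - t 1 4 := by rw [D.swap 4 6, t46]
  have t57 : t 5 7 = - t 1 4 := by rw [D.even' (a := 6) (b := 4) (by decide) (by decide), t64]
  have t73 : t 7 3 = - t 1 3 := by rw [D.swap 3 7, t37]
  have t53 : t 5 3 = 0 := by
    have h1 : t 3 3 = t 5 3 := D.rot' (by decide)
    rw [← h1, D.self]
  -- the six relations
  have R1 := D.r4 1 1 2 7 (by decide)
  have R2 := D.r4 1 5 8 8 (by decide)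
  have R3 := D.r4 1 6 6 9 (by decide)
  have R4 := D.r4 2 2 3 4 (by decide)
  have R5 := D.r4 3 5 7 7 (by decide)
  have R6 := D.r4 1 2 5 3 (by decide)
  have q1_1 : q11 1 1 = 0 := by decide
  have q1_2 : q11 1 2 = 0 := by decide
  have q1_3 : q11 1 3 = 1 := by decide
  have q1_4 : q11 1 4 = 1 := by decide
  have q1_5 : q11 1 5 = 0 := by decide
  have q1_6 : q11 1 6 = 0 := by decide
  have q1_7 : q11 1 7 = -1 := by decide
  have q1_8 : q11 1 8 = -1 := by decide
  have q2_2 : q11 2 2 = 0 := by decide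
  have q2_3 : q11 2 3 = -1 := by decide
  have q2_4 : q11 2 4 = 0 := by decide
  have q2_5 : q11 2 5 = -1 := by decide
  have q2_7 : q11 2 7 = 0 := by decide
  have q2_8 : q11 2 8 = 1 := by decide
  have q3_1 : q11 3 1 = 1 := by decide
  have q3_4 : q11 3 4 = 0 := by decide
  have q3_5 : q11 3 5 = 0 := by decide
  have q3_6 : q11 3 6 = 0 := by decide
  have q3_7 : q11 3 7 = 0 := by decide
  have q4_2 : q11 4 2 = 0 := by decide
  have q4_5 : q11 4 5 = 1 := by decide
  have q4_6 : q11 4 6 = -1 := by decide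
  have q5_3 : q11 5 3 = 0 := by decide
  have q5_7 : q11 5 7 = -1 := by decide
  have q5_8 : q11 5 8 = 0 := by decide
  have q6_6 : q11 6 6 = 0 := by decide
  have q6_9 : q11 6 9 = -1 := by decide
  have q7_1 : q11 7 1 = -1 := by decide
  have q7_3 : q11 7 3 = 0 := by decide
  have q7_7 : q11 7 7 = 0 := by decide
  have q8_1 : q11 8 1 = -1 := by decide
  have q8_8 : q11 8 8 = 0 := by decide
  have q9_1 : q11 9 1 = 0 := by decide
  simp only [ev] at R1 R2 R3 R4 R5 R6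
  simp only [D.self, t28, t81, t37, t71, t46, t61, t36, t62, t45, t52, t16, t25, t31, t42, t63, t58,
    t69, t64, t57, t73, t53, g6, g7, g8, g9, g10, map_sub, map_neg, LinearMap.neg_apply, sub_self, map_zero,
    LinearMap.zero_apply, q1_1, q1_2, q1_3, q1_4, q1_5, q1_6, q1_7, q1_8, q2_2, q2_3, q2_4, q2_5, q2_7, q2_8, q3_1, q3_4, q3_5, q3_6, q3_7, q4_2, q4_5, q4_6, q5_3, q5_7, q5_8, q6_6, q6_9, q7_1, q7_3, q7_7, q8_1, q8_8, q9_1] at R1 R2 R3 R4 R5 R6
  have r1 : m (t 1 2) (g 1) - m (t 1 2) (g 4) + m (t 1 3) (g 2) - m (t 1 3) (g 1) + (1 / 3 : ℚ) • xi0 t g m = 0 := by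
    linear_combination (norm := module) (1 : ℚ) • R1
  have r2 : - m (t 2 3) (g 1) + m (t 2 3) (g 3) + m (t 1 2) (g 3) - m (t 1 2) (g 5) + (1 / 3 : ℚ) • xi0 t g m = 0 := by
    linear_combination (norm := module) (1 : ℚ) • R2
  have r3 : - m (t 1 4) (g 2) + m (t 1 4) (g 5) + m (t 2 4) (g 5) - m (t 2 4) (g 1) + (1 / 3 : ℚ) • xi0 t g m = 0 := by
    linear_combination (norm := module) (1 : ℚ) • R3
  have r4 : m (t 2 3) (g 2) - m (t 2 3) (g 4) - m (t 2 4) (g 3) + m (t 2 4) (g 2) + (1 / 3 : ℚ) • xi0 t g m = 0 := by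
    linear_combination (norm := module) (1 : ℚ) • R4
  have r5 : - m (t 1 4) (g 3) + m (t 1 4) (g 4) - m (t 1 3) (g 4) + m (t 1 3) (g 5) + (1 / 3 : ℚ) • xi0 t g m = 0 := by
    linear_combination (norm := module) (1 : ℚ) • R5
  have r6 : m (t 1 2) (g 3) - m (t 1 2) (g 5) - m (t 2 4) (g 1) + m (t 2 4) (g 3) - m (t 1 3) (g 5) + m (t 1 3) (g 2) + (2 / 3 : ℚ) • xi0 t g m = 0 := by
    linear_combination (norm := module) (1 : ℚ) • R6
  have a1 : m (t 1 2) (g 2) = m (t 1 2) (g 1) := by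
    have h := ev 1 2
    rw [q1_2, map_sub] at h
    linear_combination (norm := module) (1 : ℚ) • h
  have a2 : m (t 1 2) (g 3) = m (t 1 2) (g 2) + xi0 t g m := by
    have h := ev 2 8
    rw [t28, g8, q2_8, map_sub] at h
    linear_combination (norm := module) (1 : ℚ) • h
  have a0 : m (t 1 3) (g 3) = m (t 1 3) (g 1) + xi0 t g m := by
    have h := ev 1 3
    rw [q1_3, map_sub] at h
    linear_combination (norm := module) (1 : ℚ) • h
  have a3 : m (t 1 3) (g 4) = m (t 1 3) (g 3) := by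
    have h := ev 3 7
    rw [t37, g7, q3_7, map_sub] at h
    linear_combination (norm := module) (1 : ℚ) • h
  have a4 : m (t 1 4) (g 4) = m (t 1 4) (g 1) + xi0 t g m := by
    have h := ev 1 4
    rw [q1_4, map_sub] at h
    linear_combination (norm := module) (1 : ℚ) • h
  have a5 : m (t 1 4) (g 5) = m (t 1 4) (g 4) - xi0 t g m := by
    have h := ev 4 6
    rw [t46, g6, q4_6, map_sub] at h
    linear_combination (norm := module) (1 : ℚ) • h
  have a6 : m (t 2 3) (g 3) = m (t 2 3) (g 2) - xi0 t g m := by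
    have h := ev 2 3
    rw [q2_3, map_sub] at h
    linear_combination (norm := module) (1 : ℚ) • h
  have a7 : m (t 2 3) (g 5) = m (t 2 3) (g 3) := by
    have h := ev 3 6
    rw [t36, g6, q3_6, map_sub] at h
    linear_combination (norm := module) (1 : ℚ) • h
  have a8 : m (t 2 4) (g 4) = m (t 2 4) (g 2) := by
    have h := ev 2 4
    rw [q2_4, map_sub] at h
    linear_combination (norm := module) (1 : ℚ) • h
  have a9 : m (t 2 4) (g 5) = m (t 2 4) (g 4) + xi0 t g m := by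
    have h := ev 4 5
    rw [t45, q4_5, map_sub] at h
    linear_combination (norm := module) (1 : ℚ) • h
  exact lin25 (fun i k => m (TT t i) (GG g k)) (xi0 t g m) a1 a2 a0 a3 a4 a5 a6 a7 a8 a9
    r1 r2 r3 r4 r5 r6 c E123 E124 E125 E134 E135 E145 E234 E235 E245 E345

/-- the orbit of a pair under the symmetries of `t` -/
def orb (a b : ZMod 11) : List (ZMod 11 × ZMod 11) :=
  [(a, b), (b, -a - b), (-a - b, a), (b, a), (-a - b, b), (a, -a - b),
    (-a, -b), (-b, a + b), (a + b, -a), (-b, -a), (a + b, -b), (-a, a + b)]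

lemma orb_t (D : Dat t g m) (a b : ZMod 11) (p : ZMod 11 × ZMod 11) (hp : p ∈ orb a b) :
    t a b = t p.1 p.2 ∨ t a b = - t p.1 p.2 := by
  have r1 : t b (-a - b) = t a b := D.rot a b
  have r2 : t (-a - b) a = t a b := by rw [← r1]; exact D.rot' (by abel)
  have s0 : t b a = - t a b := D.swap a b
  have s1 : t (-a - b) b = - t a b := by rw [D.swap b (-a - b), r1]
  have s2 : t a (-a - b) = - t a b := by rw [D.swap (-a - b) a, r2]
  have n : ∀ x y : ZMod 11, t (-x) (-y) = t x y := D.even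
  simp only [orb, List.mem_cons, List.not_mem_nil, or_false] at hp
  rcases hp with rfl | rfl | rfl | rfl | rfl | rfl | rfl | rfl | rfl | rfl | rfl | rfl
  · exact Or.inl rfl
  · exact Or.inl r1.symm
  · exact Or.inl r2.symm
  · right; show t a b = - t b a; rw [s0, neg_neg]
  · right; show t a b = - t (-a - b) b; rw [s1, neg_neg]
  · right; show t a b = - t a (-a - b); rw [s2, neg_neg]
  · exact Or.inl (n a b).symm
  · left; show t a b = t (-b) (a + b)
    rw [← n (-b) (a + b), neg_neg, show -(a + b) = -a - b by abel, r1]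
  · left; show t a b = t (a + b) (-a)
    rw [← n (a + b) (-a), neg_neg, show -(a + b) = -a - b by abel, r2]
  · right; show t a b = - t (-b) (-a); rw [n, s0, neg_neg]
  · right; show t a b = - t (a + b) (-b)
    rw [← n (a + b) (-b), neg_neg, show -(a + b) = -a - b by abel, s1, neg_neg]
  · right; show t a b = - t (-a) (a + b)
    rw [← n (-a) (a + b), neg_neg, show -(a + b) = -a - b by abel, s2, neg_neg]

lemma orb_dec : ∀ a b : ZMod 11, ∃ p ∈ orb a b, p.1 = 0 ∨ p.1 = p.2 ∨ p = (1, 2) ∨ p = (1, 3) ∨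
    p = (1, 4) ∨ p = (2, 3) ∨ p = (2, 4) := by decide

lemma t_mem (D : Dat t g m) (a b : ZMod 11) : ∃ (i : Fin 5) (s : ℚ), t a b = s • TT t i := by
  obtain ⟨p, hp, h⟩ := orb_dec a b
  have hq := orb_t D a b p hp
  have key : ∃ (i : Fin 5) (s : ℚ), t p.1 p.2 = s • TT t i := by
    rcases h with h | h | h | h | h | h | h
    · exact ⟨0, 0, by rw [h, D.zero_left, zero_smul]⟩
    · exact ⟨0, 0, by rw [h, D.self, zero_smul]⟩
    · exact ⟨0, 1, by rw [h, one_smul]; rfl⟩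
    · exact ⟨1, 1, by rw [h, one_smul]; rfl⟩
    · exact ⟨2, 1, by rw [h, one_smul]; rfl⟩
    · exact ⟨3, 1, by rw [h, one_smul]; rfl⟩
    · exact ⟨4, 1, by rw [h, one_smul]; rfl⟩
  obtain ⟨i, s, hs⟩ := key
  rcases hq with hq | hq
  · exact ⟨i, s, by rw [hq, hs]⟩
  · exact ⟨i, -s, by rw [hq, hs, neg_smul]⟩

lemma g_mem (D : Dat t g m) (c : ZMod 11) : ∃ (k : Fin 5) (s : ℚ), g c = s • GG g k := by
  have h : ∀ c : ZMod 11, c = 0 ∨ (c = 1 ∨ c = -1) ∨ (c = 2 ∨ c = -2) ∨ (c = 3 ∨ c = -3) ∨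
      (c = 4 ∨ c = -4) ∨ (c = 5 ∨ c = -5) := by decide
  rcases h c with rfl | h | h | h | h | h
  · exact ⟨0, 0, by rw [D.zero, zero_smul]⟩
  · exact ⟨0, 1, by rcases h with rfl | rfl <;> simp [GG, D.geven]⟩
  · exact ⟨1, 1, by rcases h with rfl | rfl <;> simp [GG, D.geven]⟩
  · exact ⟨2, 1, by rcases h with rfl | rfl <;> simp [GG, D.geven]⟩
  · exact ⟨3, 1, by rcases h with rfl | rfl <;> simp [GG, D.geven]⟩
  · exact ⟨4, 1, by rcases h with rfl | rfl <;> simp [GG, D.geven]⟩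

lemma span_le (D : Dat t g m) (z : B ⊗[ℚ] G)
    (hz : z ∈ Submodule.span ℚ {y | ∃ a b c : ZMod 11, y = t a b ⊗ₜ[ℚ] g c}) :
    ∃ c : Fin 5 → Fin 5 → ℚ, z = ∑ i, ∑ k, c i k • (TT t i ⊗ₜ[ℚ] GG g k) := by
  have h1 : z ∈ Submodule.span ℚ
      (Set.range fun p : Fin 5 × Fin 5 => TT t p.1 ⊗ₜ[ℚ] GG g p.2) := by
    refine (Submodule.span_le.mpr ?_) hz
    rintro y ⟨a, b, c, rfl⟩
    obtain ⟨i, s, hs⟩ := t_mem D a b
    obtain ⟨k, r, hr⟩ := g_mem D c
    rw [hs, hr, ← TensorProduct.smul_tmul', TensorProduct.tmul_smul, smul_smul]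
    exact Submodule.smul_mem _ _ (Submodule.subset_span ⟨(i, k), rfl⟩)
  obtain ⟨c, hc⟩ := (Submodule.mem_span_range_iff_exists_fun ℚ).mp h1
  refine ⟨fun i k => c (i, k), ?_⟩
  rw [← hc, Fintype.sum_prod_type]

open ExteriorAlgebra in
/-- the differential `x ⊗ u ↦ δ(x) ∧ u` -/
noncomputable def del (de : B →ₗ[ℚ] ExteriorAlgebra ℚ G) : B ⊗[ℚ] G →ₗ[ℚ] ExteriorAlgebra ℚ G :=
  TensorProduct.lift (((LinearMap.mul ℚ (ExteriorAlgebra ℚ G)).compl₂ (ι ℚ)).comp de)

open ExteriorAlgebra in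
lemma del_tmul (de : B →ₗ[ℚ] ExteriorAlgebra ℚ G) (x : B) (u : G) :
    del de (x ⊗ₜ[ℚ] u) = de x * ι ℚ u := rfl

/-- the three indices of the classes of `t` -/
def jj : Fin 5 → Fin 3 → Fin 5 := ![![0, 1, 2], ![0, 2, 3], ![0, 3, 4], ![1, 2, 4], ![1, 3, 4]]

open ExteriorAlgebra in
lemma de_TT (D : Dat t g m) {de : B →ₗ[ℚ] ExteriorAlgebra ℚ G}
    (hde : ∀ a b, de (t a b) = ι ℚ (g a) * ι ℚ (g b) + ι ℚ (g b) * ι ℚ (g (a + b)) +
      ι ℚ (g (a + b)) * ι ℚ (g a)) (i : Fin 5) :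
    de (TT t i) = ι ℚ (GG g (jj i 0)) * ι ℚ (GG g (jj i 1)) +
      ι ℚ (GG g (jj i 1)) * ι ℚ (GG g (jj i 2)) + ι ℚ (GG g (jj i 2)) * ι ℚ (GG g (jj i 0)) := by
  have g6 : g 6 = g 5 := D.g' (by decide)
  have s : ∀ a b c : ZMod 11, a + b = c → de (t a b) = ι ℚ (g a) * ι ℚ (g b) +
      ι ℚ (g b) * ι ℚ (g c) + ι ℚ (g c) * ι ℚ (g a) := by
    rintro a b c rfl; exact hde a b
  fin_cases i
  · exact s 1 2 3 (by decide)
  · exact s 1 3 4 (by decide)
  · exact s 1 4 5 (by decide)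
  · exact s 2 3 5 (by decide)
  · have h := s 2 4 6 (by decide)
    rw [g6] at h
    exact h

/-- Kronecker symbol -/
def kr (u a : Fin 5) : ℚ := if u = a then 1 else 0

/-- the determinant of three basis vectors in three coordinates -/
def dd (u v w a b c : Fin 5) : ℚ :=
  kr u a * kr v b * kr w c - kr u a * kr v c * kr w b - kr u b * kr v a * kr w c
    + kr u b * kr v c * kr w a + kr u c * kr v a * kr w b - kr u c * kr v b * kr w a

lemma dd_eq (u v w a b c : Fin 5) : Matrix.det ![![kr u a, kr u b, kr u c],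
    ![kr v a, kr v b, kr v c], ![kr w a, kr w b, kr w c]] = dd u v w a b c := by
  exact Matrix.det_fin_three (R := ℚ) ![![kr u a, kr u b, kr u c],
    ![kr v a, kr v b, kr v c], ![kr w a, kr w b, kr w c]]

open ExteriorAlgebra in
lemma eqn (D : Dat t g m) {de : B →ₗ[ℚ] ExteriorAlgebra ℚ G}
    (hde : ∀ a b, de (t a b) = ι ℚ (g a) * ι ℚ (g b) + ι ℚ (g b) * ι ℚ (g (a + b)) +
      ι ℚ (g (a + b)) * ι ℚ (g a)) (hind : LinearIndependent ℚ (GG g))
    (c : Fin 5 → Fin 5 → ℚ)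
    (h0 : del de (∑ i, ∑ k, c i k • (TT t i ⊗ₜ[ℚ] GG g k)) = 0) (x y z : Fin 5) :
    ∑ i, ∑ k, c i k * (dd (jj i 0) (jj i 1) k x y z + dd (jj i 1) (jj i 2) k x y z +
      dd (jj i 2) (jj i 0) k x y z) = 0 := by
  obtain ⟨L, hL⟩ := exists_coord hind
  let φ : G →ₗ[ℚ] (Fin 3 → ℚ) := LinearMap.pi ![(LinearMap.proj x).comp L,
    (LinearMap.proj y).comp L, (LinearMap.proj z).comp L]
  have hφ : ∀ u : Fin 5, φ (GG g u) = ![kr u x, kr u y, kr u z] := by
    intro u
    ext j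
    fin_cases j
    · show L (GG g u) x = _
      rw [hL, Pi.single_apply]
      simp [kr, eq_comm]
    · show L (GG g u) y = _
      rw [hL, Pi.single_apply]
      simp [kr, eq_comm]
    · show L (GG g u) z = _
      rw [hL, Pi.single_apply]
      simp [kr, eq_comm]
  have h1 := congrArg (dfun φ) h0
  simp only [map_sum, map_smul, del_tmul, de_TT D hde, add_mul, map_add, dfun_mul, hφ, dd_eq, map_zero,
    smul_eq_mul] at h1
  exact h1

open ExteriorAlgebra in
/-- **Order eleven**: every closed element of the span of the `t(a,b) ⊗ g_c` is a rational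
multiple of `ξ(1,3)`. -/
theorem closed11 (D : Dat t g m) {de : B →ₗ[ℚ] ExteriorAlgebra ℚ G}
    (hde : ∀ a b, de (t a b) = ι ℚ (g a) * ι ℚ (g b) + ι ℚ (g b) * ι ℚ (g (a + b)) +
      ι ℚ (g (a + b)) * ι ℚ (g a)) (hind : LinearIndependent ℚ (GG g))
    (z : B ⊗[ℚ] G)
    (hz : z ∈ Submodule.span ℚ {y | ∃ a b c : ZMod 11, y = t a b ⊗ₜ[ℚ] g c})
    (h0 : del de z = 0) : ∃ q : ℚ, TensorProduct.lift m z = q • xi0 t g m := by
  obtain ⟨c, rfl⟩ := span_le D z hz
  have E := eqn D hde hind c h0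
  have key := rels D c
    (by have := E 0 1 2; simp [Fin.sum_univ_five, dd, kr, jj] at this; linarith)
    (by have := E 0 1 3; simp [Fin.sum_univ_five, dd, kr, jj] at this; linarith)
    (by have := E 0 1 4; simp [Fin.sum_univ_five, dd, kr, jj] at this; linarith)
    (by have := E 0 2 3; simp [Fin.sum_univ_five, dd, kr, jj] at this; linarith)
    (by have := E 0 2 4; simp [Fin.sum_univ_five, dd, kr, jj] at this; linarith)
    (by have := E 0 3 4; simp [Fin.sum_univ_five, dd, kr, jj] at this; linarith)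
    (by have := E 1 2 3; simp [Fin.sum_univ_five, dd, kr, jj] at this; linarith)
    (by have := E 1 2 4; simp [Fin.sum_univ_five, dd, kr, jj] at this; linarith)
    (by have := E 1 3 4; simp [Fin.sum_univ_five, dd, kr, jj] at this; linarith)
    (by have := E 2 3 4; simp [Fin.sum_univ_five, dd, kr, jj] at this; linarith)
  obtain ⟨q, hq⟩ := key
  refine ⟨q, ?_⟩
  rw [← hq]
  simp only [map_sum, map_smul, TensorProduct.lift.tmul]

end Z11

end Pool.Agent.K4Closed
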