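import Pool.Agent.Lib_helper66.K4M.Closed11
import Pool.Agent.Lib_helper60.K4M.Final1
import Pool.Agent.Lib_helper86.K4.S1

/-!
Order eleven on a curve: every closed element of the span of the `t(a,b) ⊗ g_c` is a multiple of
`ξ(P,3P)` in `H(F)`.
-/

set_option linter.unusedSectionVars false
set_option linter.unusedVariables false

open Pool.Agent.K4Par Pool.Agent.K4Fin Pool.Agent.K4Closed
open scoped TensorProduct

namespace K4M

variable {F : Type*} [Field F] [CharZero F] [DecidableEq F] {W : WeierstrassCurve.Affine F}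
  {A : AddSubgroup W.Point} [Fintype A]

lemma lift_hkL (z : B2 F ⊗[ℚ] FT F) :
    TensorProduct.lift (hkL F) z = (Submodule.Quotient.mk z : HK F) := by
  induction z using TensorProduct.induction_on with
  | zero => rw [map_zero]; rfl
  | tmul x y => rfl
  | add x y hx hy => rw [map_add, hx, hy]; rfl

lemma dH_mk (z : B2 F ⊗[ℚ] FT F) :
    dH F (Submodule.Quotient.mk z : HK F) = del (de F) z := rfl

/-- the relations of all pencils -/
lemma relP_curve (hA : (Nat.card A).Coprime 6) {g : A → FT F} (hg : IsG4 A g) (P : A) :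
    Pool.Agent.K4ParP.Rel (hkL F) (tA A) g P := by
  have h2 := inj_two hA
  have h2' : ∀ P : A, ∃ Q, Q + Q = P := (Finite.injective_iff_bijective.mp h2).2
  refine Pool.Agent.K4ParP.rel_of_zero h2' ?_ P
  intro a b c d h1 h2 h3 h4 h5 h6 h7 h8 h9 h10 h11 h12
  have hn : ∀ x y : A, x + y + 0 ≠ 0 → x ≠ -y := by
    intro x y h h'
    apply h
    rw [h']; abel
  have key := rel_tA (pencil W) (inj_two hA) (inj_three hA) hg.isSiegel a b c d
    h1 (hn _ _ h2) h3 (hn _ _ h4) h5 (hn _ _ h6) h7 (hn _ _ h8) h9 (hn _ _ h10) h11 (hn _ _ h12)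
  rw [CR_zero_eq]
  have hs : ∀ x y : A, Pool.Agent.K4ParP.ss g 0 x y = Pool.Agent.K4Par.ss g x y := by
    intro x y
    unfold Pool.Agent.K4ParP.ss Pool.Agent.K4Par.ss
    rw [add_zero, add_comm]
  rw [hs, hs, hs, hs]
  exact key

/-- the calculus on a curve -/
theorem dat_curve (hA : (Nat.card A).Coprime 6) {g : A → FT F} (hg : IsG4 A g) :
    Dat (tA A) g (hkL F) where
  swap := (final_isT hA).swap
  rot := (final_isT hA).rot
  even := (final_isT hA).even
  zero := hg.zero
  geven := hg.even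
  man := final_manin hA hg
  r4 x y z w h := by
    have hT := final_isT hA (A := A)
    have := Pool.Agent.K4ParP.R4 (m := hkL F) (t := tA A) (g := g) ⟨hT.swap, hT.rot, hT.even⟩
      hg.even (relP_curve hA hg) x y z w h
    exact this

/-- **Order eleven.** -/
theorem closed_eleven (hA : (Nat.card A).Coprime 6) {g : A → FT F} (hg : IsG4 A g) (P : A)
    (hP : 11 • P = 0)
    (hind : LinearIndependent ℚ ![g P, g (2 • P), g (3 • P), g (4 • P), g (5 • P)])
    (z : B2 F ⊗[ℚ] FT F)
    (hz : z ∈ Submodule.span ℚ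
      {y | ∃ a b c : ℤ, y = tA A (a • P) (b • P) ⊗ₜ[ℚ] g (c • P)})
    (h0 : dH F (Submodule.Quotient.mk z : HK F) = 0) :
    ∃ q : ℚ, (Submodule.Quotient.mk z : HK F) = q • xi (hkL F) (tA A) g P (3 • P) := by
  obtain ⟨f, hf⟩ := exists_hom 11 P hP
  have D := (dat_curve hA hg).comp f
  have f1 : f 1 = P := by
    have := hf 1
    rw [one_smul] at this
    rw [← this]; norm_cast
  have fn : ∀ n : ℕ, f (n : ZMod 11) = n • P := by
    intro n
    have := hf n
    rw [← natCast_zsmul, ← this]; norm_cast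
  have f2 : f 2 = 2 • P := fn 2
  have f3 : f 3 = 3 • P := fn 3
  have f4 : f 4 = 4 • P := fn 4
  have f5 : f 5 = 5 • P := fn 5
  have hind' : LinearIndependent ℚ (GG (fun a : ZMod 11 => g (f a))) := by
    have : GG (fun a : ZMod 11 => g (f a)) =
        ![g P, g (2 • P), g (3 • P), g (4 • P), g (5 • P)] := by
      unfold GG
      simp only [f1, f2, f3, f4, f5]
    rw [this]; exact hind
  have hz' : z ∈ Submodule.span ℚ
      {y | ∃ a b c : ZMod 11, y = tA A (f a) (f b) ⊗ₜ[ℚ] g (f c)} := by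
    refine Submodule.span_mono ?_ hz
    rintro y ⟨a, b, c, rfl⟩
    exact ⟨(a : ZMod 11), (b : ZMod 11), (c : ZMod 11), by rw [hf, hf, hf]⟩
  have hde : ∀ a b : ZMod 11, de F (tA A (f a) (f b)) =
      ExteriorAlgebra.ι ℚ (g (f a)) * ExteriorAlgebra.ι ℚ (g (f b)) +
      ExteriorAlgebra.ι ℚ (g (f b)) * ExteriorAlgebra.ι ℚ (g (f (a + b))) +
      ExteriorAlgebra.ι ℚ (g (f (a + b))) * ExteriorAlgebra.ι ℚ (g (f a)) := by
    intro a b
    rw [map_add]
    exact final_de hA hg (f a) (f b)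
  obtain ⟨q, hq⟩ := closed11 D (de := de F) hde hind' z hz' h0
  refine ⟨q, ?_⟩
  rw [← lift_hkL, hq]
  congr 1
  unfold xi0
  simp only [f1, f3]
  rfl

end K4M
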