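import Mathlib

/-!
Coordinates on products of three elements of the exterior algebra.
-/

namespace Pool.Agent.K4Closed

open ExteriorAlgebra

variable {G : Type*} [AddCommGroup G] [Module ℚ G]

/-- the functional `x ∧ y ∧ z ↦ det (φ x, φ y, φ z)` -/
noncomputable def dfun (φ : G →ₗ[ℚ] (Fin 3 → ℚ)) : ExteriorAlgebra ℚ G →ₗ[ℚ] ℚ :=
  liftAlternating (R := ℚ) (M := G) (N := ℚ)
    (Pi.single 3 ((Matrix.detRowAlternating (n := Fin 3) (R := ℚ)).compLinearMap φ))

lemma dfun_mul (φ : G →ₗ[ℚ] (Fin 3 → ℚ)) (x y z : G) :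
    dfun φ (ι ℚ x * ι ℚ y * ι ℚ z) = Matrix.det ![φ x, φ y, φ z] := by
  have h : ι ℚ x * ι ℚ y * ι ℚ z = ιMulti ℚ 3 ![x, y, z] := by
    rw [ιMulti_apply]
    simp [List.ofFn_succ, mul_assoc]
  rw [h, dfun, liftAlternating_apply_ιMulti, Pi.single_eq_same]
  rw [AlternatingMap.compLinearMap_apply]
  show Matrix.det (fun i => φ (![x, y, z] i)) = _
  congr 1
  ext i j
  fin_cases i <;> rfl

/-- coordinates of a linearly independent family -/
lemma exists_coord {n : ℕ} {v : Fin n → G} (hv : LinearIndependent ℚ v) :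
    ∃ L : G →ₗ[ℚ] (Fin n → ℚ), ∀ i, L (v i) = Pi.single i 1 := by
  obtain ⟨g, hg⟩ := LinearMap.exists_leftInverse_of_injective
    (Fintype.linearCombination ℚ v) (by
      rw [LinearMap.ker_eq_bot]
      exact LinearIndependent.fintypeLinearCombination_injective hv)
  refine ⟨g, fun i => ?_⟩
  have h1 : Fintype.linearCombination ℚ v (Pi.single i 1) = v i := by
    rw [Fintype.linearCombination_apply_single, one_smul]
  rw [← h1]
  exact LinearMap.congr_fun hg (Pi.single i 1)

end Pool.Agent.K4Closed
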