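import Mathlib

/-!
Divisibility by two of the points of an elliptic curve over an algebraically closed field.
-/

set_option linter.unusedSectionVars false

namespace K4M

open WeierstrassCurve.Affine Polynomial

variable {F : Type*} [Field F] [DecidableEq F] {W : WeierstrassCurve.Affine F}

/-- the resultant identity of `4x³+b₂x²+2b₄x+b₆` and `x⁴-b₄x²-2b₆x-b₈` -/
lemma res_id (W : WeierstrassCurve.Affine F) (x : F) :
    (12 * x ^ 3 - W.b₂ * x ^ 2 - 10 * W.b₄ * x + W.b₂ * W.b₄ - 27 * W.b₆) *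
      (4 * x ^ 3 + W.b₂ * x ^ 2 + 2 * W.b₄ * x + W.b₆) -
    (48 * x ^ 2 + 8 * W.b₂ * x + 32 * W.b₄ - W.b₂ ^ 2) *
      (x ^ 4 - W.b₄ * x ^ 2 - 2 * W.b₆ * x - W.b₈) = W.Δ := by
  simp only [WeierstrassCurve.Δ, WeierstrassCurve.b₂, WeierstrassCurve.b₄, WeierstrassCurve.b₆,
    WeierstrassCurve.b₈]
  ring

/-- `x(2Q)` -/
lemma x_double {x y : F} (h : W.Equation x y) (hy : y ≠ W.negY x y) :
    W.addX x x (W.slope x x y y) * (4 * x ^ 3 + W.b₂ * x ^ 2 + 2 * W.b₄ * x + W.b₆) =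
      x ^ 4 - W.b₄ * x ^ 2 - 2 * W.b₆ * x - W.b₈ := by
  rw [equation_iff] at h
  have hy' : y - W.negY x y ≠ 0 := sub_ne_zero.mpr hy
  rw [slope_of_Y_ne rfl hy, addX]
  have e : 4 * x ^ 3 + W.b₂ * x ^ 2 + 2 * W.b₄ * x + W.b₆ = (y - W.negY x y) ^ 2 := by
    simp only [negY, WeierstrassCurve.b₂, WeierstrassCurve.b₄, WeierstrassCurve.b₆]
    linear_combination (-4) * h
  rw [e]
  field_simp
  simp only [negY, WeierstrassCurve.b₄, WeierstrassCurve.b₆, WeierstrassCurve.b₈]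
  linear_combination (-(8 * x + 4 * W.a₂ + W.a₁ ^ 2)) * h

lemma b_ne {x : F} (hΔ : W.Δ ≠ 0)
    (h : x ^ 4 - W.b₄ * x ^ 2 - 2 * W.b₆ * x - W.b₈ = 0) :
    4 * x ^ 3 + W.b₂ * x ^ 2 + 2 * W.b₄ * x + W.b₆ ≠ 0 := by
  intro h0
  apply hΔ
  rw [← res_id W x, h, h0, mul_zero, mul_zero, sub_zero]

/-- every point of an elliptic curve over an algebraically closed field is divisible by two -/
theorem two_div [IsAlgClosed F] (W : WeierstrassCurve.Affine F) (hΔ : W.Δ ≠ 0) (P : W.Point) :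
    ∃ Q : W.Point, Q + Q = P := by
  rcases P with _ | ⟨x0, y0, hP⟩
  · exact ⟨0, add_zero _⟩
  -- the quartic
  obtain ⟨x, hx⟩ : ∃ x : F, x ^ 4 - W.b₄ * x ^ 2 - 2 * W.b₆ * x - W.b₈ =
      x0 * (4 * x ^ 3 + W.b₂ * x ^ 2 + 2 * W.b₄ * x + W.b₆) := by
    let p : F[X] := X ^ 4 + (C (-(4 * x0)) * X ^ 3 + C (-(W.b₄ + x0 * W.b₂)) * X ^ 2 +
      C (-(2 * W.b₆ + 2 * x0 * W.b₄)) * X + C (-(W.b₈ + x0 * W.b₆)))
    have hd : p.degree ≠ 0 := by
      have h1 : (C (-(4 * x0)) * X ^ 3 + C (-(W.b₄ + x0 * W.b₂)) * X ^ 2 +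
        C (-(2 * W.b₆ + 2 * x0 * W.b₄)) * X + C (-(W.b₈ + x0 * W.b₆)) : F[X]).degree < 4 := by
        refine lt_of_le_of_lt degree_cubic_le ?_
        norm_num
      have h2 : p.degree = 4 := by
        show (X ^ 4 + _ : F[X]).degree = 4
        rw [degree_add_eq_left_of_degree_lt, degree_X_pow]
        · rfl
        · rw [degree_X_pow]; exact h1
      rw [h2]; norm_num
    obtain ⟨x, hx⟩ := IsAlgClosed.exists_root p hd
    refine ⟨x, ?_⟩
    have : p.eval x = 0 := hx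
    simp only [p, eval_add, eval_mul, eval_pow, eval_X, eval_C] at this
    linear_combination this
  obtain ⟨y, hy⟩ : ∃ y : F, W.Equation x y := by
    let p : F[X] := C 1 * X ^ 2 + C (W.a₁ * x + W.a₃) * X +
      C (-(x ^ 3 + W.a₂ * x ^ 2 + W.a₄ * x + W.a₆))
    have hd : p.degree ≠ 0 := by
      rw [degree_quadratic one_ne_zero]; norm_num
    obtain ⟨y, hy⟩ := IsAlgClosed.exists_root p hd
    refine ⟨y, ?_⟩
    have : p.eval y = 0 := hy
    simp only [p, eval_add, eval_mul, eval_pow, eval_X, eval_C] at this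
    rw [equation_iff]
    linear_combination this
  have hns : W.Nonsingular x y := (equation_iff_nonsingular_of_Δ_ne_zero hΔ).mp hy
  have hsq : 4 * x ^ 3 + W.b₂ * x ^ 2 + 2 * W.b₄ * x + W.b₆ = (y - W.negY x y) ^ 2 := by
    have h := hy
    rw [equation_iff] at h
    simp only [negY, WeierstrassCurve.b₂, WeierstrassCurve.b₄, WeierstrassCurve.b₆]
    linear_combination (-4) * h
  have hne : 4 * x ^ 3 + W.b₂ * x ^ 2 + 2 * W.b₄ * x + W.b₆ ≠ 0 := by
    intro h0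
    exact b_ne hΔ (by rw [hx, h0, mul_zero]) h0
  have hyne : y ≠ W.negY x y := by
    intro h0
    apply hne
    rw [hsq, ← h0, sub_self]; ring
  have hX : W.addX x x (W.slope x x y y) = x0 := by
    have h1 := x_double hy hyne
    rw [hx] at h1
    exact mul_right_cancel₀ hne h1
  let Q : W.Point := Point.some x y hns
  have hQ : Q + Q = Point.some _ _ (nonsingular_add hns hns fun hxy => hyne hxy.right) :=
    Point.add_self_of_Y_ne hyne
  have hcase : Q + Q = Point.some x0 y0 hP ∨ Q + Q = - Point.some x0 y0 hP := by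
    rw [← Point.xRep_eq_xRep_iff, hQ]
    simp only [Point.xRep, hX]
  rcases hcase with h | h
  · exact ⟨Q, h⟩
  · exact ⟨-Q, by rw [← neg_add, h, neg_neg]⟩

end K4M
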