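import Pool.Agent.Lib_helper60.K4M.DivSeq
import Pool.Agent.Lib_helper66.K4M.Div

/-!
The multiplication by `n` on the `x`-line: `(Φ_n(x) : ΨSq_n(x))` for every point.
-/

set_option linter.unusedSectionVars false

namespace K4M

open WeierstrassCurve.Affine Polynomial

/-- the biquadratic form, homogeneous in the first variable -/
def NNh {R : Type*} [CommRing R] (b2 b4 b6 b8 p q v w : R) : R :=
  p ^ 2 * (v - w) ^ 2 + p * q * (-2 * v * w * (v + w) - b2 * v * w - b4 * (v + w) - b6)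
    + q ^ 2 * (v ^ 2 * w ^ 2 - b4 * v * w - b6 * (v + w) - b8)

section Pt

variable {F : Type*} [Field F] [DecidableEq F] {W : WeierstrassCurve.Affine F}

/-- the value of the form on the curve -/
def NNw (W : WeierstrassCurve.Affine F) (p q v w : F) : F := NNh W.b₂ W.b₄ W.b₆ W.b₈ p q v w

lemma NNw_one (u v w : F) : NNw W u 1 v w = NN W u v w := by
  unfold NNw NNh NN; ring

lemma NNw_smul (c p q v w : F) : NNw W (c * p) (c * q) v w = c ^ 2 * NNw W p q v w := by
  unfold NNw NNh; ring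

lemma ps_sq {P : W.Point} (hP : P ≠ 0) : ps P ^ 2 = W.Ψ₂Sq.eval (xc P) := by
  rcases P with _ | ⟨x, y, h⟩
  · exact absurd rfl hP
  have h1 := (equation_iff x y).mp h.1
  show (2 * y + W.a₁ * x + W.a₃) ^ 2 = W.Ψ₂Sq.eval x
  rw [WeierstrassCurve.Ψ₂Sq]
  simp only [eval_add, eval_mul, eval_C, eval_pow, eval_X, WeierstrassCurve.b₂,
    WeierstrassCurve.b₄, WeierstrassCurve.b₆]
  linear_combination 4 * h1

lemma om_eval {P : W.Point} (hP : P ≠ 0) (n : ℕ) :
    (WeierstrassCurve.ΨSq W (n : ℤ)).eval (xc P) = un P n ^ 2 := by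
  rw [WeierstrassCurve.ΨSq_ofNat]
  unfold un
  split_ifs with he
  · rw [eval_mul, eval_pow, mul_pow, ps_sq hP]
  · rw [mul_one, mul_one, eval_pow]

lemma phi_eval {P : W.Point} (hP : P ≠ 0) (n : ℕ) :
    (WeierstrassCurve.Φ W ((n : ℤ) + 1)).eval (xc P) =
      xc P * un P (n + 1) ^ 2 - un P (n + 2) * un P n := by
  rw [WeierstrassCurve.Φ_ofNat]
  unfold un
  by_cases he : Even n
  · have h1 : ¬ Even (n + 1) := by rw [Nat.even_add_one]; simpa using he
    have h2 : Even (n + 2) := by rw [Nat.even_add]; simp [he]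
    rw [if_pos he, if_pos he, if_neg h1, if_pos h2, if_pos he]
    simp only [eval_sub, eval_mul, eval_pow, eval_X, eval_one]
    rw [← ps_sq hP]
    ring
  · have h1 : Even (n + 1) := by rw [Nat.even_add_one]; exact he
    have h2 : ¬ Even (n + 2) := by rw [Nat.even_add]; simp [he]
    rw [if_neg he, if_neg he, if_pos h1, if_neg h2, if_neg he]
    simp only [eval_sub, eval_mul, eval_pow, eval_X, eval_one]
    rw [← ps_sq hP]
    ring

lemma phi_good {P : W.Point} {M : ℕ} (hP : Good P M) {n : ℕ} (h1 : 1 ≤ n) (h2 : n ≤ M) :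
    (WeierstrassCurve.Φ W (n : ℤ)).eval (xc P) =
      xc (n • P) * (WeierstrassCurve.ΨSq W (n : ℤ)).eval (xc P) := by
  obtain ⟨m, rfl⟩ : ∃ m, n = m + 1 := ⟨n - 1, by omega⟩
  have hP1 : P ≠ 0 := by
    have := hP 1 le_rfl (by omega)
    rwa [one_smul] at this
  rw [om_eval hP1]
  push_cast
  rw [phi_eval hP1, ← x_sub hP m (by omega)]
  ring

/-- a point whose abscissa is not a root of the division polynomials is good -/
lemma good_of_om {P : W.Point} (hP : P ≠ 0) (M : ℕ)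
    (h : ∀ j : ℕ, 1 ≤ j → j ≤ M → (WeierstrassCurve.ΨSq W (j : ℤ)).eval (xc P) ≠ 0) :
    Good P M := by
  by_contra hc
  unfold Good at hc
  push Not at hc
  classical
  have hex : ∃ m : ℕ, 1 ≤ m ∧ m ≤ M ∧ m • P = 0 := hc
  let m := Nat.find hex
  obtain ⟨h1, h2, h3⟩ := Nat.find_spec hex
  have hm : ∀ k, k < Nat.find hex → ¬ (1 ≤ k ∧ k ≤ M ∧ k • P = 0) :=
    fun k hk => Nat.find_min hex hk
  have hne : Nat.find hex ≠ 1 := by
    intro h
    rw [h, one_smul] at h3
    exact hP h3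
  obtain ⟨r, hr⟩ : ∃ r, Nat.find hex = r + 1 := ⟨Nat.find hex - 1, by omega⟩
  have hg : Good P r := by
    intro k hk1 hk2 hk3
    exact hm k (by omega) ⟨hk1, by omega, hk3⟩
  rw [hr] at h3
  have := un_order (by omega) hg h3
  apply h (r + 1) (by omega) (by omega)
  rw [om_eval hP, this]
  ring

/-- the point-level relation -/
lemma pt_rel (hΔ : W.Δ ≠ 0) (a b : W.Point) (hb : b ≠ 0) :
    ∃ l : F, l ≠ 0 ∧ ∀ X : F,
      NNw W (xv a).1 (xv a).2 (xc b) X =
        l * ((X * (xv (a + b)).2 - (xv (a + b)).1) * (X * (xv (a - b)).2 - (xv (a - b)).1)) := by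
  have hself : b + b ≠ 0 → ∀ X : F, NN W (xc b) (xc b) X = - ((X - xc (b + b)) * ps b ^ 2) := by
    intro h X
    rw [S2 hb h]; ring
  have h0 : (xv (0 : W.Point)) = (1, 0) := rfl
  have htwo : b + b = 0 → ∃ l : F, l ≠ 0 ∧ ∀ X : F, NN W (xc b) (xc b) X = l := by
    intro h
    have hps : ps b = 0 := (ps_eq_zero_iff hb).mpr h
    have hsq := ps_sq hb
    rw [hps, WeierstrassCurve.Ψ₂Sq] at hsq
    simp only [eval_add, eval_mul, eval_C, eval_pow, eval_X] at hsq
    refine ⟨xc b ^ 4 - W.b₄ * xc b ^ 2 - 2 * W.b₆ * xc b - W.b₈, ?_, ?_⟩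
    · intro h1
      exact b_ne hΔ h1 (by linear_combination -hsq)
    · intro X
      unfold NN
      linear_combination X * hsq
  by_cases ha : a = 0
  · subst ha
    refine ⟨1, one_ne_zero, fun X => ?_⟩
    rw [zero_add, zero_sub, xv_neg', h0, xv_of_ne hb]
    unfold NNw NNh
    ring
  by_cases hab : a = b
  · subst hab
    by_cases h2 : a + a = 0
    · obtain ⟨l, hl, h⟩ := htwo h2
      refine ⟨l, hl, fun X => ?_⟩
      rw [h2, sub_self, h0, xv_of_ne ha]
      show NNw W (xc a) 1 (xc a) X = _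
      rw [NNw_one, h]
      simp
    · refine ⟨ps a ^ 2, pow_ne_zero 2 (fun h => h2 ((ps_eq_zero_iff ha).mp h)), fun X => ?_⟩
      rw [sub_self, h0, xv_of_ne h2, xv_of_ne ha]
      show NNw W (xc a) 1 (xc a) X = _
      rw [NNw_one, hself h2]
      ring
  by_cases hab' : a = -b
  · subst hab'
    have hx : xv (-b) = xv b := xv_neg' b
    by_cases h2 : b + b = 0
    · obtain ⟨l, hl, h⟩ := htwo h2
      refine ⟨l, hl, fun X => ?_⟩
      rw [neg_add_cancel, show -b - b = -(b + b) by abel, h2, neg_zero, hx, h0, xv_of_ne hb]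
      show NNw W (xc b) 1 (xc b) X = _
      rw [NNw_one, h]
      simp
    · refine ⟨ps b ^ 2, pow_ne_zero 2 (fun h => h2 ((ps_eq_zero_iff hb).mp h)), fun X => ?_⟩
      rw [neg_add_cancel, show -b - b = -(b + b) by abel, hx, xv_neg' (b + b), h0,
        xv_of_ne hb, xv_of_ne h2]
      show NNw W (xc b) 1 (xc b) X = _
      rw [NNw_one, hself h2]
      ring
  · have n1 : a + b ≠ 0 := fun h => hab' (eq_neg_of_add_eq_zero_left h)
    have n2 : a - b ≠ 0 := sub_ne_zero.mpr hab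
    refine ⟨(xc a - xc b) ^ 2, ?_, fun X => ?_⟩
    · apply pow_ne_zero 2
      intro h
      apply dx_ne hab hab'
      unfold dx
      rw [xv_of_ne ha, xv_of_ne hb]
      linear_combination h
    · rw [xv_of_ne n1, xv_of_ne n2, xv_of_ne ha]
      show NNw W (xc a) 1 (xc b) X = _
      rw [NNw_one, ← S1 ha hb hab hab']
      ring

end Pt

section Poly

variable {F : Type*} [Field F] [DecidableEq F] {W : WeierstrassCurve.Affine F}

/-- over an algebraically closed field every abscissa is the abscissa of a point -/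
lemma exists_pt [IsAlgClosed F] (hΔ : W.Δ ≠ 0) (x : F) : ∃ P : W.Point, P ≠ 0 ∧ xc P = x := by
  obtain ⟨y, hy⟩ : ∃ y : F, W.Equation x y := by
    let p : F[X] := C 1 * X ^ 2 + C (W.a₁ * x + W.a₃) * X +
      C (-(x ^ 3 + W.a₂ * x ^ 2 + W.a₄ * x + W.a₆))
    have hd : p.degree ≠ 0 := by
      rw [degree_quadratic one_ne_zero]; norm_num
    obtain ⟨y, hy⟩ := IsAlgClosed.exists_root p hd
    refine ⟨y, ?_⟩
    have : p.eval y = 0 := hy
    simp only [p, eval_add, eval_mul, eval_pow, eval_X, eval_C] at this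
    rw [equation_iff]
    linear_combination this
  have hns : W.Nonsingular x y := (equation_iff_nonsingular_of_Δ_ne_zero hΔ).mp hy
  exact ⟨Point.some x y hns, fun h => by simp at h, rfl⟩

/-- the polynomial identity -/
theorem star [IsAlgClosed F] [CharZero F] (hΔ : W.Δ ≠ 0) (n : ℕ) (x X0 : F) :
    (X0 * (WeierstrassCurve.ΨSq W ((n + 2 : ℕ) : ℤ)).eval x -
        (WeierstrassCurve.Φ W ((n + 2 : ℕ) : ℤ)).eval x) *
      (X0 * (WeierstrassCurve.ΨSq W (n : ℤ)).eval x - (WeierstrassCurve.Φ W (n : ℤ)).eval x) =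
    NNw W ((WeierstrassCurve.Φ W ((n + 1 : ℕ) : ℤ)).eval x)
      ((WeierstrassCurve.ΨSq W ((n + 1 : ℕ) : ℤ)).eval x) x X0 := by
  rcases Nat.eq_zero_or_pos n with rfl | hn
  · have e2 : WeierstrassCurve.Φ W ((0 + 2 : ℕ) : ℤ) = WeierstrassCurve.Φ W 2 := rfl
    have e3 : WeierstrassCurve.ΨSq W ((0 + 2 : ℕ) : ℤ) = WeierstrassCurve.ΨSq W 2 := rfl
    have e4 : WeierstrassCurve.Φ W ((0 + 1 : ℕ) : ℤ) = WeierstrassCurve.Φ W 1 := rfl
    have e5 : WeierstrassCurve.ΨSq W ((0 + 1 : ℕ) : ℤ) = WeierstrassCurve.ΨSq W 1 := rfl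
    have e6 : WeierstrassCurve.Φ W ((0 : ℕ) : ℤ) = WeierstrassCurve.Φ W 0 := rfl
    have e7 : WeierstrassCurve.ΨSq W ((0 : ℕ) : ℤ) = WeierstrassCurve.ΨSq W 0 := rfl
    rw [e2, e3, e4, e5, e6, e7, WeierstrassCurve.Φ_two, WeierstrassCurve.ΨSq_two,
      WeierstrassCurve.Φ_one, WeierstrassCurve.ΨSq_one, WeierstrassCurve.Φ_zero,
      WeierstrassCurve.ΨSq_zero, WeierstrassCurve.Ψ₂Sq]
    simp only [eval_add, eval_sub, eval_mul, eval_C, eval_pow, eval_X, eval_one, eval_zero]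
    unfold NNw NNh
    ring
  -- polynomials in `x`
  let Pl : F[X] := (C X0 * WeierstrassCurve.ΨSq W ((n + 2 : ℕ) : ℤ) -
        WeierstrassCurve.Φ W ((n + 2 : ℕ) : ℤ)) *
      (C X0 * WeierstrassCurve.ΨSq W (n : ℤ) - WeierstrassCurve.Φ W (n : ℤ))
  let Pr : F[X] := NNh (C W.b₂) (C W.b₄) (C W.b₆) (C W.b₈)
    (WeierstrassCurve.Φ W ((n + 1 : ℕ) : ℤ)) (WeierstrassCurve.ΨSq W ((n + 1 : ℕ) : ℤ)) X (C X0)
  have hl : ∀ x, Pl.eval x = (X0 * (WeierstrassCurve.ΨSq W ((n + 2 : ℕ) : ℤ)).eval x -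
        (WeierstrassCurve.Φ W ((n + 2 : ℕ) : ℤ)).eval x) *
      (X0 * (WeierstrassCurve.ΨSq W (n : ℤ)).eval x -
        (WeierstrassCurve.Φ W (n : ℤ)).eval x) := by
    intro x
    simp only [Pl, eval_mul, eval_sub, eval_C]
  have hr : ∀ x, Pr.eval x = NNw W ((WeierstrassCurve.Φ W ((n + 1 : ℕ) : ℤ)).eval x)
      ((WeierstrassCurve.ΨSq W ((n + 1 : ℕ) : ℤ)).eval x) x X0 := by
    intro x
    simp only [Pr, NNw, NNh, eval_add, eval_sub, eval_mul, eval_neg, eval_C, eval_pow, eval_X,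
      eval_ofNat]
  suffices h : Pl = Pr by rw [← hl, ← hr, h]
  -- the bad set
  let D : F[X] := ∏ j ∈ Finset.range (n + 2), WeierstrassCurve.ΨSq W ((j + 1 : ℕ) : ℤ)
  have hD : D ≠ 0 := by
    rw [Finset.prod_ne_zero_iff]
    intro j _
    apply WeierstrassCurve.ΨSq_ne_zero
    have : ((j + 1 : ℕ) : F) ≠ 0 := Nat.cast_ne_zero.mpr (by omega)
    exact_mod_cast this
  have hinf : Set.Infinite {x : F | D.eval x ≠ 0} := by
    have : {x : F | D.eval x ≠ 0} = (↑(D.roots.toFinset) : Set F)ᶜ := by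
      ext x
      simp [hD]
    rw [this]
    exact (Finset.finite_toSet _).infinite_compl
  apply Polynomial.eq_of_infinite_eval_eq
  refine hinf.mono ?_
  intro x hx
  show Pl.eval x = Pr.eval x
  have hx : D.eval x ≠ 0 := hx
  obtain ⟨P, hP, rfl⟩ := exists_pt hΔ x
  have hg : Good P (n + 2) := by
    refine good_of_om hP (n + 2) ?_
    intro j h1 h2 h0
    apply hx
    simp only [D, eval_prod]
    refine Finset.prod_eq_zero (i := j - 1) (Finset.mem_range.mpr (by omega)) ?_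
    rw [show j - 1 + 1 = j by omega]
    exact h0
  rw [hl, hr]
  have p2 := phi_good hg (n := n + 2) (by omega) le_rfl
  have p1 := phi_good hg (n := n + 1) (by omega) (by omega)
  have p0 := phi_good hg (n := n) (by omega) (by omega)
  rw [p2, p1, p0, om_eval hP, om_eval hP, om_eval hP]
  have hN : NNw W (xc ((n + 1) • P) * un P (n + 1) ^ 2) (un P (n + 1) ^ 2) (xc P) X0 =
      (un P (n + 1) ^ 2) ^ 2 * NN W (xc ((n + 1) • P)) (xc P) X0 := by
    rw [← NNw_one, ← NNw_smul, mul_one, mul_comm]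
  rw [hN]
  have m1 : (n + 1) • P ≠ 0 := hg _ (by omega) (by omega)
  have m2 : (n + 1) • P ≠ P := by
    intro h
    apply hg n (by omega) (by omega)
    rw [add_smul, one_smul] at h
    simpa using h
  have m3 : (n + 1) • P ≠ -P := by
    intro h
    apply hg (n + 2) (by omega) le_rfl
    rw [show n + 2 = (n + 1) + 1 by rfl, add_smul (n + 1) 1 P, one_smul, h, neg_add_cancel]
  have s := S1 m1 hP m2 m3 X0
  have a1 : (n + 1) • P + P = (n + 2) • P := by
    rw [show n + 2 = (n + 1) + 1 by rfl, add_smul (n + 1) 1 P, one_smul]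
  have a2 : (n + 1) • P - P = n • P := by rw [add_smul, one_smul, add_sub_cancel_right]
  rw [a1, a2] at s
  rw [← s]
  have q := x_sub hg n (by omega)
  linear_combination (-(X0 - xc ((n + 2) • P)) * (X0 - xc (n • P)) *
    ((xc P - xc ((n + 1) • P)) * un P (n + 1) ^ 2 + un P (n + 2) * un P n)) * q

end Poly

end K4M
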