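import Pool.Agent.Lib_helper2.K4.Defs

set_option autoImplicit false

/-!
Finite part: for the eight levels `N = 11, 14, 15, 17, 19, 20, 21, 24` for which `X_0(N)` is a curve
of genus one without complex multiplication the Manin relations imply that all traces
`∑_{u ∈ (ℤ/N)^×} ξ(uaP, ubP)` are multiples of one of them.
-/

namespace Pool.Agent.MK4

section Check

/-- is `(a, b)` in the orbit of `r` with sign `+` -/
def gpos (N : ℕ) (U : List ℕ) (r : ℕ × ℕ) (a b : ℕ) : Bool :=
  U.any fun u => (u * r.1 % N == a && u * r.2 % N == b) || (u * r.1 % N == b && u * r.2 % N == a)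

/-- is `(a, b)` up to sign in the orbit of an element of `L` -/
def glk (N : ℕ) (U : List ℕ) (L : List (ℕ × ℕ)) (a b : ℕ) : Bool :=
  L.any fun r => gpos N U r a b || gpos N U r a ((N - b) % N)

/-- one step of the derivation -/
def gstep (N : ℕ) (U : List ℕ) (L : List (ℕ × ℕ)) (p : ℕ × ℕ) : Bool :=
  gpos N U p p.1 ((N - p.2) % N) ||
    ((glk N U L p.2 ((2 * N - p.1 - p.2) % N) || gpos N U p p.2 ((2 * N - p.1 - p.2) % N)) &&
      (glk N U L ((2 * N - p.1 - p.2) % N) p.1 || gpos N U p ((2 * N - p.1 - p.2) % N) p.1))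

/-- check of a derivation, `h` is the base -/
def gchk (N : ℕ) (U : List ℕ) (h : ℕ × ℕ) : List (ℕ × ℕ) → Bool
  | [] => true
  | p :: L => (p == h || (decide (p.1 < N) && decide (p.2 < N) && gstep N U L p)) && gchk N U h L

/-- every pair is in the orbit of an element of `L` -/
def gall (N : ℕ) (U : List ℕ) (L : List (ℕ × ℕ)) : Bool :=
  (List.range N).all fun a => (List.range N).all fun b => glk N U L a b

variable {H : Type*} [AddCommGroup H] [Module ℚ H]

/-- the hypotheses on the function `f` -/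
structure GSys (N : ℕ) (f : ℕ → ℕ → H) : Prop where
  md : ∀ a b, f (a % N) (b % N) = f a b
  sym : ∀ a b, f b a = f a b
  par : ∀ a b c, (b + c) % N = 0 → f a c = - f a b
  tri : ∀ a b c, (a + b + c) % N = 0 → f a b + f b c + f c a = 0
  uni : ∀ u a b, Nat.Coprime u N → f (u * a) (u * b) = f a b

variable {N : ℕ} {f : ℕ → ℕ → H} {U : List ℕ}

omit [Module ℚ H] in
lemma gpos_spec (hf : GSys N f) (hU : ∀ u ∈ U, Nat.Coprime u N) {r : ℕ × ℕ} {a b : ℕ}
    (h : gpos N U r a b = true) : f a b = f r.1 r.2 := by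
  unfold gpos at h
  obtain ⟨u, hu, h⟩ := List.any_eq_true.mp h
  have e : f (u * r.1 % N) (u * r.2 % N) = f r.1 r.2 := by
    rw [hf.md, hf.uni u _ _ (hU u hu)]
  simp only [Bool.or_eq_true, Bool.and_eq_true, beq_iff_eq] at h
  rcases h with ⟨h1, h2⟩ | ⟨h1, h2⟩
  · rw [← e, h1, h2]
  · rw [← e, h1, h2, hf.sym]

omit [Module ℚ H] in
lemma gneg {hN : 0 < N} (hf : GSys N f) {a b : ℕ} (hb : b < N) : f a ((N - b) % N) = - f a b := by
  apply hf.par
  rcases Nat.eq_zero_or_pos b with h | h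
  · subst h; simp
  · rw [Nat.mod_eq_of_lt (Nat.sub_lt hN h), Nat.add_sub_cancel' hb.le, Nat.mod_self]

lemma glk_spec (hN : 0 < N) (hf : GSys N f) (hU : ∀ u ∈ U, Nat.Coprime u N) {L : List (ℕ × ℕ)}
    {M : Submodule ℚ H} (hL : ∀ p ∈ L, f p.1 p.2 ∈ M) {a b : ℕ} (hb : b < N)
    (h : glk N U L a b = true) : f a b ∈ M := by
  unfold glk at h
  obtain ⟨r, hr, h⟩ := List.any_eq_true.mp h
  rw [Bool.or_eq_true] at h
  rcases h with h | h
  · rw [gpos_spec hf hU h]; exact hL r hr
  · have h1 := gpos_spec hf hU h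
    rw [gneg (hN := hN) hf hb] at h1
    rw [← neg_neg (f a b), h1]
    exact M.neg_mem (hL r hr)

lemma gstep_spec (hN : 0 < N) (hf : GSys N f) (hU : ∀ u ∈ U, Nat.Coprime u N)
    {L : List (ℕ × ℕ)} {M : Submodule ℚ H} (hL : ∀ p ∈ L, f p.1 p.2 ∈ M) {p : ℕ × ℕ}
    (h1 : p.1 < N) (h2 : p.2 < N) (h : gstep N U L p = true) : f p.1 p.2 ∈ M := by
  have key : ∀ k : ℕ, 0 < k → (k : ℚ) • f p.1 p.2 ∈ M → f p.1 p.2 ∈ M := by
    intro k hk hm
    have hk' : (k : ℚ) ≠ 0 := by exact_mod_cast hk.ne'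
    have := M.smul_mem (k : ℚ)⁻¹ hm
    rwa [smul_smul, inv_mul_cancel₀ hk', one_smul] at this
  unfold gstep at h
  rw [Bool.or_eq_true] at h
  rcases h with h | h
  · have e := gpos_spec hf hU h
    rw [gneg (hN := hN) hf h2] at e
    apply key 2 (by norm_num)
    have : ((2 : ℕ) : ℚ) • f p.1 p.2 = 0 := by
      push_cast
      rw [two_smul]
      nth_rw 1 [← e]
      exact neg_add_cancel _
    rw [this]
    exact M.zero_mem
  · set c := (2 * N - p.1 - p.2) % N with hc
    have hcN : c < N := Nat.mod_lt _ hN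
    have hs : (p.1 + p.2 + c) % N = 0 := by
      have e1 : (p.1 + p.2 + c) % N = (p.1 + p.2 + (2 * N - p.1 - p.2)) % N := by
        rw [hc, Nat.add_mod_mod]
      have e2 : p.1 + p.2 + (2 * N - p.1 - p.2) = 2 * N := by omega
      rw [e1, e2, Nat.mul_mod_left]
    have ht := hf.tri p.1 p.2 c hs
    simp only [Bool.and_eq_true, Bool.or_eq_true] at h
    obtain ⟨hA, hB⟩ := h
    have hA' : f p.2 c ∈ M ∨ f p.2 c = f p.1 p.2 := by
      rcases hA with hA | hA
      · exact Or.inl (glk_spec hN hf hU hL hcN hA)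
      · exact Or.inr (gpos_spec hf hU hA)
    have hB' : f c p.1 ∈ M ∨ f c p.1 = f p.1 p.2 := by
      rcases hB with hB | hB
      · exact Or.inl (glk_spec hN hf hU hL h1 hB)
      · exact Or.inr (gpos_spec hf hU hB)
    rcases hA' with hA' | hA' <;> rcases hB' with hB' | hB'
    · have e : f p.1 p.2 = - (f p.2 c + f c p.1) := by
        rw [eq_neg_iff_add_eq_zero, ← ht]; abel
      rw [e]
      exact M.neg_mem (M.add_mem hA' hB')
    · apply key 2 (by norm_num)
      have e : ((2 : ℕ) : ℚ) • f p.1 p.2 = - f p.2 c := by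
        rw [hB'] at ht
        push_cast
        rw [two_smul, eq_neg_iff_add_eq_zero, ← ht]; abel
      rw [e]
      exact M.neg_mem hA'
    · apply key 2 (by norm_num)
      have e : ((2 : ℕ) : ℚ) • f p.1 p.2 = - f c p.1 := by
        rw [hA'] at ht
        push_cast
        rw [two_smul, eq_neg_iff_add_eq_zero, ← ht]
      rw [e]
      exact M.neg_mem hB'
    · apply key 3 (by norm_num)
      have e : ((3 : ℕ) : ℚ) • f p.1 p.2 = 0 := by
        rw [hA', hB'] at ht
        rw [← ht]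
        push_cast
        module
      rw [e]
      exact M.zero_mem

lemma gchk_spec (hN : 0 < N) (hf : GSys N f) (hU : ∀ u ∈ U, Nat.Coprime u N) (h : ℕ × ℕ)
    {M : Submodule ℚ H} (hM : f h.1 h.2 ∈ M) (L : List (ℕ × ℕ)) (hc : gchk N U h L = true) :
    ∀ p ∈ L, f p.1 p.2 ∈ M := by
  induction L with
  | nil => intro p hp; simp at hp
  | cons q L ih =>
    unfold gchk at hc
    rw [Bool.and_eq_true] at hc
    have hL := ih hc.2
    intro p hp
    rcases List.mem_cons.mp hp with rfl | hp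
    · have h1 := hc.1
      rw [Bool.or_eq_true] at h1
      rcases h1 with h1 | h1
      · rw [beq_iff_eq] at h1; subst h1; exact hM
      · simp only [Bool.and_eq_true, decide_eq_true_eq] at h1
        exact gstep_spec hN hf hU hL h1.1.1 h1.1.2 h1.2
    · exact hL p hp

theorem g_main (hN : 0 < N) (hf : GSys N f) (hU : ∀ u ∈ U, Nat.Coprime u N) (h : ℕ × ℕ)
    (L : List (ℕ × ℕ)) (hc : gchk N U h L = true) (ha : gall N U L = true) (a b : ℕ) :
    ∃ q : ℚ, f a b = q • f h.1 h.2 := by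
  have hL := gchk_spec (M := Submodule.span ℚ {f h.1 h.2}) hN hf hU h
    (Submodule.subset_span rfl) L hc
  unfold gall at ha
  rw [List.all_eq_true] at ha
  have h1 := ha (a % N) (List.mem_range.mpr (Nat.mod_lt _ hN))
  rw [List.all_eq_true] at h1
  have h2 := h1 (b % N) (List.mem_range.mpr (Nat.mod_lt _ hN))
  have h3 := glk_spec hN hf hU hL (Nat.mod_lt _ hN) h2
  rw [hf.md] at h3
  obtain ⟨q, hq⟩ := Submodule.mem_span_singleton.mp h3
  exact ⟨q, hq.symm⟩

end Check

section Tr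

variable {A H : Type*} [AddCommGroup A] [AddCommGroup H] [Module ℚ H]

/-- The trace `∑_{u mod N prime to N} ξ(uaP, ubP)`. -/
def tr0 (ξ : A → A → H) (N : ℕ) (P : A) (a b : ℤ) : H :=
  ∑ u ∈ (Finset.range N).filter (fun u => Nat.Coprime u N), ξ ((u * a : ℤ) • P) ((u * b : ℤ) • P)

variable {ξ : A → A → H} {N : ℕ} {P : A}

lemma g_smul_eq (hP : N • P = 0) {x y : ℤ} (h : (N : ℤ) ∣ x - y) : x • P = y • P := by
  obtain ⟨k, hk⟩ := h
  have e : x = y + k * N := by linarith
  rw [e, add_smul, mul_smul, natCast_zsmul, hP, smul_zero, add_zero]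

omit [Module ℚ H] in
lemma tr0_congr (hP : N • P = 0) {a a' b b' : ℤ} (ha : (N : ℤ) ∣ a - a')
    (hb : (N : ℤ) ∣ b - b') : tr0 ξ N P a b = tr0 ξ N P a' b' := by
  unfold tr0
  refine Finset.sum_congr rfl fun u _ => ?_
  rw [g_smul_eq hP (x := u * a) (y := u * a') (by rw [← mul_sub]; exact Dvd.dvd.mul_left ha _),
    g_smul_eq hP (x := u * b) (y := u * b') (by rw [← mul_sub]; exact Dvd.dvd.mul_left hb _)]

omit [Module ℚ H] in
lemma tr0_uni (hN : 0 < N) (hP : N • P = 0) (v : ℕ) (hv : Nat.Coprime v N) (a b : ℤ) :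
    tr0 ξ N P (v * a) (v * b) = tr0 ξ N P a b := by
  classical
  set S := (Finset.range N).filter (fun u => Nat.Coprime u N) with hS
  have hinj : Set.InjOn (fun u : ℕ => u * v % N) (S : Set ℕ) := by
    intro x hx y hy hxy
    have hx' := Finset.mem_filter.mp (Finset.mem_coe.mp hx)
    have hy' := Finset.mem_filter.mp (Finset.mem_coe.mp hy)
    have h1 : x * v ≡ y * v [MOD N] := hxy
    have h2 : x ≡ y [MOD N] := Nat.ModEq.cancel_right_of_coprime (by rw [Nat.gcd_comm]; exact hv) h1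
    have h3 : x % N = y % N := h2
    rwa [Nat.mod_eq_of_lt (Finset.mem_range.mp hx'.1),
      Nat.mod_eq_of_lt (Finset.mem_range.mp hy'.1)] at h3
  have himg : S.image (fun u : ℕ => u * v % N) = S := by
    apply Finset.eq_of_subset_of_card_le
    · intro w hw
      obtain ⟨u, hu, rfl⟩ := Finset.mem_image.mp hw
      have hu' := Finset.mem_filter.mp hu
      refine Finset.mem_filter.mpr ⟨Finset.mem_range.mpr (Nat.mod_lt _ hN), ?_⟩
      show Nat.gcd (u * v % N) N = 1
      rw [← Nat.gcd_rec, Nat.gcd_comm]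
      exact Nat.Coprime.mul_left hu'.2 hv
    · rw [Finset.card_image_of_injOn hinj]
  unfold tr0
  rw [← hS]
  conv_rhs => rw [← himg, Finset.sum_image hinj]
  refine Finset.sum_congr rfl fun u _ => ?_
  have key : ∀ z : ℤ, (N : ℤ) ∣ (u : ℤ) * (v * z) - ((u * v % N : ℕ) : ℤ) * z := by
    intro z
    have : (u : ℤ) * (v * z) - ((u * v % N : ℕ) : ℤ) * z = N * ((u * v / N : ℕ) * z) := by
      have h1 : ((u * v % N : ℕ) : ℤ) + N * ((u * v / N : ℕ) : ℤ) = u * v := by
        exact_mod_cast Nat.mod_add_div (u * v) N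
      linear_combination (-z) * h1
    rw [this]
    exact dvd_mul_right _ _
  rw [g_smul_eq hP (key a), g_smul_eq hP (key b)]

theorem gsys (hξ : Manin ξ) (hN : 0 < N) (hP : N • P = 0) :
    GSys N (fun a b : ℕ => tr0 ξ N P a b) where
  md a b := by
    apply tr0_congr hP
    · exact ⟨-((a / N : ℕ) : ℤ), by
        have := Nat.mod_add_div a N
        have h1 : ((a % N : ℕ) : ℤ) + N * ((a / N : ℕ) : ℤ) = a := by exact_mod_cast this
        linear_combination h1⟩
    · exact ⟨-((b / N : ℕ) : ℤ), by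
        have := Nat.mod_add_div b N
        have h1 : ((b % N : ℕ) : ℤ) + N * ((b / N : ℕ) : ℤ) = b := by exact_mod_cast this
        linear_combination h1⟩
  sym a b := by
    unfold tr0
    exact Finset.sum_congr rfl fun u _ => hξ.sym _ _
  par a b c h := by
    have hd : (N : ℤ) ∣ (c : ℤ) - (-(b : ℤ)) := by
      have : N ∣ b + c := Nat.dvd_of_mod_eq_zero h
      have h2 : (N : ℤ) ∣ ((b + c : ℕ) : ℤ) := by exact_mod_cast this
      convert h2 using 1
      push_cast; ring
    have e : tr0 ξ N P a c = tr0 ξ N P a (-(b : ℤ)) := tr0_congr hP (by simp) hd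
    show tr0 ξ N P a c = - tr0 ξ N P a b
    rw [e]
    unfold tr0
    rw [← Finset.sum_neg_distrib]
    refine Finset.sum_congr rfl fun u _ => ?_
    rw [mul_neg, neg_smul, hξ.par]
  tri a b c h := by
    show tr0 ξ N P a b + tr0 ξ N P b c + tr0 ξ N P c a = 0
    unfold tr0
    rw [← Finset.sum_add_distrib, ← Finset.sum_add_distrib]
    refine Finset.sum_eq_zero fun u _ => ?_
    apply hξ.tri
    rw [← add_smul, ← add_smul]
    have hd : (N : ℤ) ∣ ((u : ℤ) * a + u * b + u * c) - 0 := by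
      have : N ∣ a + b + c := Nat.dvd_of_mod_eq_zero h
      have h2 : (N : ℤ) ∣ ((a + b + c : ℕ) : ℤ) := by exact_mod_cast this
      have e : ((u : ℤ) * a + u * b + u * c) - 0 = u * ((a + b + c : ℕ) : ℤ) := by
        push_cast; ring
      rw [e]
      exact Dvd.dvd.mul_left h2 (u : ℤ)
    rw [g_smul_eq hP hd, zero_smul]
  uni u a b h := by
    show tr0 ξ N P ((u * a : ℕ) : ℤ) ((u * b : ℕ) : ℤ) = tr0 ξ N P a b
    rw [← tr0_uni (ξ := ξ) hN hP u h a b]
    push_cast
    rfl

/-- All traces at level `N` are multiples of one class. -/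
def Level0 (ξ : A → A → H) (N : ℕ) : Prop :=
  ∀ P : A, N • P = 0 → ∃ h : H, ∀ a b : ℤ, ∃ q : ℚ, tr0 ξ N P a b = q • h

theorem level0_of (hξ : Manin ξ) (hN : 0 < N) (U : List ℕ) (hU : ∀ u ∈ U, Nat.Coprime u N)
    (h : ℕ × ℕ) (L : List (ℕ × ℕ)) (hc : gchk N U h L = true) (ha : gall N U L = true) :
    Level0 ξ N := by
  intro P hP
  refine ⟨tr0 ξ N P (h.1 : ℤ) (h.2 : ℤ), fun a b => ?_⟩
  have hN' : (0 : ℤ) < N := by exact_mod_cast hN
  obtain ⟨q, hq⟩ := g_main hN (gsys hξ hN hP) hU h L hc ha (a % N).toNat (b % N).toNat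
  refine ⟨q, ?_⟩
  have e : ∀ z : ℤ, (N : ℤ) ∣ z - ((z % N).toNat : ℤ) := by
    intro z
    rw [Int.toNat_of_nonneg (Int.emod_nonneg _ hN'.ne')]
    exact Int.dvd_self_sub_emod
  rw [tr0_congr hP (e a) (e b)]
  exact hq

end Tr

end Pool.Agent.MK4
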