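import Pool.Agent.Lib_helper66.K4M.Genus1

set_option autoImplicit false

/-!
The eight levels for which `X_0(N)` is of genus one without complex multiplication.
-/

namespace Pool.Agent.MK4

variable {A H : Type*} [AddCommGroup A] [AddCommGroup H] [Module ℚ H] {ξ : A → A → H}

theorem level0_11 (hξ : Manin ξ) : Level0 ξ 11 :=
  level0_of hξ (by norm_num) [1, 2, 3, 4, 5, 6, 7, 8, 9, 10] (by decide) (1, 3)
    [(1, 10), (1, 2), (0, 1), (0, 0), (1, 3)]
    (by decide +kernel) (by decide +kernel)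

theorem level0_14 (hξ : Manin ξ) : Level0 ξ 14 :=
  level0_of hξ (by norm_num) [1, 3, 5, 9, 11, 13] (by decide) (1, 3)
    [(7, 7), (3, 12), (3, 4), (2, 13), (2, 12), (2, 7), (2, 4), (1, 13), (1, 7), (0, 7), (0, 2), (0, 1), (0, 0), (1, 3)]
    (by decide +kernel) (by decide +kernel)

theorem level0_15 (hξ : Manin ξ) : Level0 ξ 15 :=
  level0_of hξ (by norm_num) [1, 2, 4, 7, 8, 11, 13, 14] (by decide) (1, 3)
    [(5, 5), (3, 12), (3, 6), (3, 5), (2, 12), (2, 11), (2, 5), (1, 14), (1, 11), (0, 5), (0, 3), (0, 1), (0, 0), (1, 3)]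
    (by decide +kernel) (by decide +kernel)

theorem level0_17 (hξ : Manin ξ) : Level0 ξ 17 :=
  level0_of hξ (by norm_num) [1, 2, 3, 4, 5, 6, 7, 8, 9, 10, 11, 12, 13, 14, 15, 16] (by decide) (1, 3)
    [(2, 1), (1, 16), (1, 10), (1, 4), (0, 1), (0, 0), (1, 3)]
    (by decide +kernel) (by decide +kernel)

theorem level0_19 (hξ : Manin ξ) : Level0 ξ 19 :=
  level0_of hξ (by norm_num) [1, 2, 3, 4, 5, 6, 7, 8, 9, 10, 11, 12, 13, 14, 15, 16, 17, 18] (by decide) (1, 4)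
    [(1, 18), (1, 10), (1, 7), (1, 3), (0, 1), (0, 0), (1, 4)]
    (by decide +kernel) (by decide +kernel)

theorem level0_20 (hξ : Manin ξ) : Level0 ξ 20 :=
  level0_of hξ (by norm_num) [1, 3, 7, 9, 11, 13, 17, 19] (by decide) (1, 3)
    [(10, 10), (6, 4), (5, 15), (5, 10), (4, 18), (4, 16), (4, 10), (4, 9), (4, 8), (4, 5), (4, 3), (3, 15), (3, 7), (2, 18), (2, 17), (2, 10), (2, 9), (2, 6), (2, 5), (1, 19), (1, 10), (0, 10), (0, 5), (0, 4), (0, 2), (0, 1), (0, 0), (1, 3)]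
    (by decide +kernel) (by decide +kernel)

theorem level0_21 (hξ : Manin ξ) : Level0 ξ 21 :=
  level0_of hξ (by norm_num) [1, 2, 4, 5, 8, 10, 11, 13, 16, 17, 19, 20] (by decide) (1, 3)
    [(7, 7), (4, 14), (4, 11), (3, 18), (3, 7), (3, 6), (2, 18), (2, 17), (1, 20), (1, 15), (1, 4), (0, 7), (0, 3), (0, 1), (0, 0), (1, 3)]
    (by decide +kernel) (by decide +kernel)

theorem level0_24 (hξ : Manin ξ) : Level0 ξ 24 :=
  level0_of hξ (by norm_num) [1, 5, 7, 11, 13, 17, 19, 23] (by decide) (1, 3)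
    [(12, 12), (10, 2), (9, 3), (9, 1), (8, 20), (8, 12), (8, 10), (8, 8), (8, 5), (7, 23), (7, 22), (6, 18), (6, 14), (6, 12), (6, 9), (6, 8), (6, 7), (5, 23), (5, 7), (4, 20), (4, 12), (4, 10), (4, 6), (4, 5), (3, 21), (3, 12), (3, 8), (3, 4), (2, 22), (2, 21), (2, 12), (2, 11), (1, 23), (1, 12), (0, 12), (0, 8), (0, 6), (0, 4), (0, 3), (0, 2), (0, 1), (0, 0), (1, 3)]
    (by decide +kernel) (by decide +kernel)

theorem level0_all (hξ : Manin ξ) :
    ∀ N ∈ ([11, 14, 15, 17, 19, 20, 21, 24] : List ℕ), Level0 ξ N := by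
  intro N hN
  simp only [List.mem_cons, List.not_mem_nil, or_false] at hN
  rcases hN with rfl | rfl | rfl | rfl | rfl | rfl | rfl | rfl
  · exact level0_11 hξ
  · exact level0_14 hξ
  · exact level0_15 hξ
  · exact level0_17 hξ
  · exact level0_19 hξ
  · exact level0_20 hξ
  · exact level0_21 hξ
  · exact level0_24 hξ

end Pool.Agent.MK4
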