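import Mathlib

set_option autoImplicit false

/-!
Ranks of Manin symbols at prime level: counting of fixed points and traces.
-/

namespace Pool.Agent.K4Rank

open Finset

variable {p : ℕ} [hp : Fact p.Prime]

/-- vectors -/
abbrev XX (p : ℕ) : Type := ZMod p × ZMod p

/-- number of fixed points -/
def fixN (s : XX p → XX p) : ℕ := (univ.filter fun x => s x = x).card

lemma card_XX : (univ : Finset (XX p)).card = p ^ 2 := by
  rw [Finset.card_univ, Fintype.card_prod, ZMod.card, sq]

/-- points on a line -/
lemma card_line {α β : ZMod p} (h : α ≠ 0 ∨ β ≠ 0) :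
    (univ.filter fun x : XX p => α * x.1 + β * x.2 = 0).card = p := by
  rcases h with h | h
  · have e : (univ.filter fun x : XX p => α * x.1 + β * x.2 = 0) =
        univ.image (fun y : ZMod p => ((-β * y / α, y) : XX p)) := by
      ext ⟨x, y⟩
      simp only [mem_filter, mem_univ, true_and, mem_image, Prod.mk.injEq]
      constructor
      · intro h1
        refine ⟨y, ?_, rfl⟩
        field_simp
        linear_combination -h1
      · rintro ⟨y', h1, rfl⟩
        rw [← h1]
        field_simp
        ring
    rw [e, Finset.card_image_of_injective, card_univ, ZMod.card]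
    intro a b hab
    exact (Prod.ext_iff.mp hab).2
  · have e : (univ.filter fun x : XX p => α * x.1 + β * x.2 = 0) =
        univ.image (fun y : ZMod p => ((y, -α * y / β) : XX p)) := by
      ext ⟨x, y⟩
      simp only [mem_filter, mem_univ, true_and, mem_image, Prod.mk.injEq]
      constructor
      · intro h1
        refine ⟨x, rfl, ?_⟩
        field_simp
        linear_combination -h1
      · rintro ⟨y', rfl, h1⟩
        rw [← h1]
        field_simp
        ring
    rw [e, Finset.card_image_of_injective, card_univ, ZMod.card]
    intro a b hab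
    exact (Prod.ext_iff.mp hab).1

/-- fixed points of a matrix -/
lemma card_fix (a b c d : ZMod p) :
    fixN (fun x : XX p => (a * x.1 + b * x.2, c * x.1 + d * x.2)) =
      if (a - 1) * (d - 1) - b * c = 0 then
        (if a = 1 ∧ b = 0 ∧ c = 0 ∧ d = 1 then p ^ 2 else p) else 1 := by
  unfold fixN
  have e : (univ.filter fun x : XX p => (a * x.1 + b * x.2, c * x.1 + d * x.2) = x) =
      univ.filter fun x : XX p => (a - 1) * x.1 + b * x.2 = 0 ∧ c * x.1 + (d - 1) * x.2 = 0 := by
    ext ⟨x, y⟩
    simp only [mem_filter, mem_univ, true_and, Prod.mk.injEq]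
    constructor
    · rintro ⟨h1, h2⟩
      exact ⟨by linear_combination h1, by linear_combination h2⟩
    · rintro ⟨h1, h2⟩
      exact ⟨by linear_combination h1, by linear_combination h2⟩
  rw [e]
  split_ifs with h1 h2
  · obtain ⟨rfl, rfl, rfl, rfl⟩ := h2
    simp only [sub_self, zero_mul, add_zero, and_self, filter_true]
    exact card_XX
  · by_cases h3 : a - 1 ≠ 0 ∨ b ≠ 0
    · refine Eq.trans ?_ (card_line h3)
      congr 1
      ext ⟨x, y⟩
      simp only [mem_filter, mem_univ, true_and]
      constructor
      · exact fun h => h.1
      · intro h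
        refine ⟨h, ?_⟩
        rcases h3 with h3 | h3
        · have : (a - 1) * (c * x + (d - 1) * y) = 0 := by
            linear_combination c * h + y * h1
          exact (mul_eq_zero.mp this).resolve_left h3
        · have : b * (c * x + (d - 1) * y) = 0 := by
            linear_combination (d - 1) * h - x * h1
          exact (mul_eq_zero.mp this).resolve_left h3
    · push Not at h3
      have h4 : c ≠ 0 ∨ d - 1 ≠ 0 := by
        by_contra hn
        push Not at hn
        exact h2 ⟨by linear_combination h3.1, h3.2, hn.1, by linear_combination hn.2⟩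
      refine Eq.trans ?_ (card_line h4)
      congr 1
      ext ⟨x, y⟩
      simp only [mem_filter, mem_univ, true_and]
      constructor
      · exact fun h => h.2
      · intro h
        refine ⟨?_, h⟩
        rw [h3.1, h3.2]; ring
  · rw [Finset.card_eq_one]
    refine ⟨(0, 0), ?_⟩
    ext ⟨x, y⟩
    simp only [mem_filter, mem_univ, true_and, mem_singleton, Prod.mk.injEq]
    constructor
    · rintro ⟨h2, h3⟩
      constructor
      · have : ((a - 1) * (d - 1) - b * c) * x = 0 := by
          linear_combination (d - 1) * h2 - b * h3
        exact (mul_eq_zero.mp this).resolve_left h1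
      · have : ((a - 1) * (d - 1) - b * c) * y = 0 := by
          linear_combination (a - 1) * h3 - c * h2
        exact (mul_eq_zero.mp this).resolve_left h1
    · rintro ⟨rfl, rfl⟩
      constructor <;> ring

/-- trace of a substitution -/
lemma trace_fun (s : XX p → XX p) :
    LinearMap.trace ℚ (XX p → ℚ) (LinearMap.funLeft ℚ ℚ s) = fixN s := by
  classical
  rw [LinearMap.trace_eq_matrix_trace ℚ (Pi.basisFun ℚ (XX p)), Matrix.trace]
  have e : ∀ i : XX p, (LinearMap.toMatrix (Pi.basisFun ℚ (XX p)) (Pi.basisFun ℚ (XX p))
      (LinearMap.funLeft ℚ ℚ s)).diag i = if s i = i then 1 else 0 := by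
    intro i
    rw [Matrix.diag_apply, LinearMap.toMatrix_apply, Pi.basisFun_apply, Pi.basisFun_repr,
      LinearMap.funLeft_apply, Pi.single_apply]
  simp only [e]
  rw [Finset.sum_boole]
  rfl

end Pool.Agent.K4Rank
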