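import Pool.Agent.Lib_helper66.K4M.RankA

set_option autoImplicit false

/-!
Ranks of Manin symbols at prime level: dimensions of the two spaces of invariants.
-/

namespace Pool.Agent.K4Rank

open Finset

variable {p : ℕ} [hp : Fact p.Prime] (U : Subgroup (ZMod p)ˣ)

/-- functions on the vectors -/
abbrev VV (p : ℕ) : Type := XX p → ℚ

variable {U} in
/-- the scalar of an element of `U` -/
abbrev cu (u : U) : ZMod p := ((u : (ZMod p)ˣ) : ZMod p)

/-- the number of elements of order four -/
noncomputable def e2 : ℕ := Nat.card {u : U // cu u ^ 2 = -1}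

/-- the number of elements of order three -/
noncomputable def e3 : ℕ := Nat.card {u : U // cu u ^ 2 + cu u + 1 = 0}

open Classical in
/-- the sum over the scalars in `U` -/
noncomputable def av : VV p →ₗ[ℚ] VV p :=
  ∑ u : U, LinearMap.funLeft ℚ ℚ (fun x : XX p => (cu u * x.1, cu u * x.2))

open Classical in
lemma av_apply (f : VV p) (x : XX p) :
    av U f x = ∑ u : U, f (cu u * x.1, cu u * x.2) := by
  unfold av
  rw [LinearMap.sum_apply, Finset.sum_apply]
  rfl

/-- a matrix as a map -/
def mt (a b c d : ZMod p) (x : XX p) : XX p := (a * x.1 + b * x.2, c * x.1 + d * x.2)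

open Classical in
lemma trace_av (a b c d : ZMod p) :
    LinearMap.trace ℚ (VV p) ((LinearMap.funLeft ℚ ℚ (mt a b c d)).comp (av U)) =
      ∑ u : U, (fixN (mt (cu u * a) (cu u * b) (cu u * c) (cu u * d)) : ℚ) := by
  have e : (LinearMap.funLeft ℚ ℚ (mt a b c d)).comp (av U) =
      ∑ u : U, LinearMap.funLeft ℚ ℚ (mt (cu u * a) (cu u * b) (cu u * c) (cu u * d)) := by
    refine LinearMap.ext fun f => ?_
    funext x
    rw [LinearMap.comp_apply, LinearMap.funLeft_apply, av_apply, LinearMap.sum_apply,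
      Finset.sum_apply]
    refine Finset.sum_congr rfl fun u _ => ?_
    rw [LinearMap.funLeft_apply]
    congr 1
    unfold mt
    refine Prod.ext ?_ ?_
    · show cu u * (a * x.1 + b * x.2) = cu u * a * x.1 + cu u * b * x.2
      ring
    · show cu u * (c * x.1 + d * x.2) = cu u * c * x.1 + cu u * d * x.2
      ring
  rw [e, map_sum]
  exact Finset.sum_congr rfl fun u _ => trace_fun _

open Classical in
/-- sum of fixed points if no multiple is the identity -/
lemma trace_av_ne (a b c d : ZMod p) (hne : b ≠ 0 ∨ c ≠ 0 ∨ a ≠ d)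
    (P : U → Prop) (hP : ∀ u : U, P u ↔ (cu u * a - 1) * (cu u * d - 1)
      - (cu u * b) * (cu u * c) = 0) :
    LinearMap.trace ℚ (VV p) ((LinearMap.funLeft ℚ ℚ (mt a b c d)).comp (av U)) =
      (Nat.card U : ℚ) + (Nat.card {u : U // P u} : ℚ) * ((p : ℚ) - 1) := by
  rw [trace_av]
  have e : ∀ u : U, (fixN (mt (cu u * a) (cu u * b) (cu u * c)
      (cu u * d)) : ℚ) = 1 + (if P u then ((p : ℚ) - 1) else 0) := by
    intro u
    have h := card_fix (cu u * a) (cu u * b) (cu u * c)
      (cu u * d)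
    have hu : cu u ≠ 0 := Units.ne_zero _
    have hno : ¬ (cu u * a = 1 ∧ cu u * b = 0 ∧
        cu u * c = 0 ∧ cu u * d = 1) := by
      rintro ⟨h1, h2, h3, h4⟩
      rcases hne with h5 | h5 | h5
      · exact (mul_ne_zero hu h5) h2
      · exact (mul_ne_zero hu h5) h3
      · exact h5 (mul_left_cancel₀ hu (h1.trans h4.symm))
    rw [if_neg hno] at h
    unfold mt
    rw [h]
    by_cases hPu : P u
    · rw [if_pos hPu, if_pos ((hP u).mp hPu)]; ring
    · rw [if_neg hPu, if_neg (fun h' => hPu ((hP u).mpr h'))]; simp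
  simp only [e]
  have c1 : (Nat.card {u : U // P u} : ℚ) = ((univ.filter P).card : ℚ) := by
    rw [Nat.card_eq_fintype_card, Fintype.card_subtype]
  have c2 : (Nat.card U : ℚ) = ((univ : Finset U).card : ℚ) := by
    rw [Nat.card_eq_fintype_card, Finset.card_univ]
  rw [c1, c2, Finset.sum_add_distrib, Finset.sum_const, ← Finset.sum_filter,
    Finset.sum_const, nsmul_eq_mul, nsmul_eq_mul, mul_one]

open Classical in
lemma trace_av_one :
    LinearMap.trace ℚ (VV p) (av U) = (Nat.card U : ℚ) + ((p : ℚ) ^ 2 - 1) := by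
  have e0 : av U = (LinearMap.funLeft ℚ ℚ (mt (1 : ZMod p) 0 0 1)).comp (av U) := by
    have : (mt (1 : ZMod p) 0 0 1) = id := by
      funext x; unfold mt; simp
    rw [this]; rfl
  rw [e0, trace_av]
  have e : ∀ u : U, (fixN (mt (cu u * (1 : ZMod p)) (cu u * 0)
      (cu u * 0) (cu u * 1)) : ℚ) =
      1 + (if u = 1 then ((p : ℚ) ^ 2 - 1) else 0) := by
    intro u
    have h := card_fix (cu u * (1 : ZMod p)) (cu u * 0)
      (cu u * 0) (cu u * 1)
    unfold mt
    rw [h]
    simp only [mul_one, mul_zero, sub_zero, true_and, and_self]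
    by_cases hu : u = 1
    · subst hu
      have h1 : cu (1 : U) = 1 := rfl
      rw [h1]
      simp
    · have h1 : cu u ≠ 1 := by
        intro h2
        exact hu (Subtype.ext (Units.ext h2))
      have h2 : (cu u - 1) * (cu u - 1) ≠ 0 :=
        mul_ne_zero (sub_ne_zero.mpr h1) (sub_ne_zero.mpr h1)
      rw [if_neg h2, if_neg hu]; simp
  simp only [e]
  rw [Finset.sum_add_distrib, Finset.sum_const, Finset.card_univ, Finset.sum_ite_eq' univ,
    if_pos (mem_univ _), nsmul_eq_mul, mul_one, Nat.card_eq_fintype_card]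

variable {U}

/-- two square roots of one -/
lemma card_sq_one (hp2 : p ≠ 2) (hU : (-1 : (ZMod p)ˣ) ∈ U) :
    Nat.card {u : U // cu u ^ 2 = 1} = 2 := by
  classical
  have hne : (1 : ZMod p) ≠ -1 := by
    intro h
    have h2 : ((2 : ℕ) : ZMod p) = 0 := by push_cast; linear_combination h
    rw [ZMod.natCast_eq_zero_iff] at h2
    exact hp2 ((Nat.prime_dvd_prime_iff_eq hp.out Nat.prime_two).mp h2)
  rw [Nat.card_eq_fintype_card, Fintype.card_subtype]
  have e : (univ.filter fun u : U => cu u ^ 2 = 1) =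
      {1, ⟨-1, hU⟩} := by
    ext u
    simp only [mem_filter, mem_univ, true_and, mem_insert, mem_singleton]
    constructor
    · intro h
      have : (cu u - 1) * (cu u + 1) = 0 := by
        linear_combination h
      rcases mul_eq_zero.mp this with h | h
      · left
        exact Subtype.ext (Units.ext (by rw [sub_eq_zero] at h; exact h))
      · right
        refine Subtype.ext (Units.ext ?_)
        show cu u = ((-1 : (ZMod p)ˣ) : ZMod p)
        rw [Units.val_neg, Units.val_one]
        linear_combination h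
    · rintro (rfl | rfl)
      · simp
      · show (((-1 : (ZMod p)ˣ) : ZMod p)) ^ 2 = 1
        rw [Units.val_neg, Units.val_one]; ring
  rw [e, Finset.card_pair]
  intro h
  have h1 := congrArg (fun u : U => cu u) h
  apply hne
  have h2 : cu (⟨-1, hU⟩ : U) = -1 := by
    show (((-1 : (ZMod p)ˣ)) : ZMod p) = -1
    rw [Units.val_neg, Units.val_one]
  have h3 : cu (1 : U) = 1 := rfl
  rw [← h2, ← h3]
  exact h1

variable (U)

/-- the space of the functions with the first two symmetries -/
def VA : Submodule ℚ (VV p) where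
  carrier := {f | (∀ x y, f (y, x) = f (x, y)) ∧ (∀ x y, f (x, -y) = - f (x, y)) ∧
    ∀ u : U, ∀ x y, f (cu u * x, cu u * y) = f (x, y)}
  add_mem' := by
    rintro f g ⟨h1, h2, h3⟩ ⟨k1, k2, k3⟩
    refine ⟨fun x y => ?_, fun x y => ?_, fun u x y => ?_⟩
    · simp only [Pi.add_apply, h1 x y, k1 x y]
    · simp only [Pi.add_apply, h2 x y, k2 x y]; ring
    · simp only [Pi.add_apply, h3 u x y, k3 u x y]
  zero_mem' := ⟨fun _ _ => rfl, fun _ _ => by simp, fun _ _ _ => rfl⟩
  smul_mem' := by
    rintro c f ⟨h1, h2, h3⟩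
    refine ⟨fun x y => ?_, fun x y => ?_, fun u x y => ?_⟩
    · simp only [Pi.smul_apply, h1 x y]
    · simp only [Pi.smul_apply, h2 x y, smul_neg]
    · simp only [Pi.smul_apply, h3 u x y]

/-- the space of the functions invariant under the group of order twelve -/
def VB : Submodule ℚ (VV p) where
  carrier := {f | (∀ x y, f (y, x) = f (x, y)) ∧ (∀ x y, f (y, -x - y) = f (x, y)) ∧
    ∀ u : U, ∀ x y, f (cu u * x, cu u * y) = f (x, y)}
  add_mem' := by
    rintro f g ⟨h1, h2, h3⟩ ⟨k1, k2, k3⟩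
    refine ⟨fun x y => ?_, fun x y => ?_, fun u x y => ?_⟩
    · simp only [Pi.add_apply, h1 x y, k1 x y]
    · simp only [Pi.add_apply, h2 x y, k2 x y]
    · simp only [Pi.add_apply, h3 u x y, k3 u x y]
  zero_mem' := ⟨fun _ _ => rfl, fun _ _ => rfl, fun _ _ _ => rfl⟩
  smul_mem' := by
    rintro c f ⟨h1, h2, h3⟩
    refine ⟨fun x y => ?_, fun x y => ?_, fun u x y => ?_⟩
    · simp only [Pi.smul_apply, h1 x y]
    · simp only [Pi.smul_apply, h2 x y]
    · simp only [Pi.smul_apply, h3 u x y]

open Classical in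
lemma av_scale (f : VV p) (v : U) (x y : ZMod p) :
    av U f (cu v * x, cu v * y) = av U f (x, y) := by
  rw [av_apply, av_apply]
  conv_rhs => rw [← Equiv.sum_comp (Equiv.mulRight v)]
  refine Finset.sum_congr rfl fun u _ => ?_
  have h : cu (u * v) = cu u * cu v := rfl
  rw [Equiv.coe_mulRight, h]
  congr 1
  refine Prod.ext ?_ ?_
  · show cu u * (cu v * x) = cu u * cu v * x
    ring
  · show cu u * (cu v * y) = cu u * cu v * y
    ring

lemma av_neg (hU : (-1 : (ZMod p)ˣ) ∈ U) (f : VV p) (x y : ZMod p) :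
    av U f (-x, -y) = av U f (x, y) := by
  have h := av_scale U f ⟨-1, hU⟩ x y
  have h2 : cu (⟨-1, hU⟩ : U) = -1 := by
    show (((-1 : (ZMod p)ˣ)) : ZMod p) = -1
    rw [Units.val_neg, Units.val_one]
  rw [← h, h2, neg_one_mul, neg_one_mul]

lemma av_id {f : VV p} (hf : ∀ u : U, ∀ x y, f (cu u * x, cu u * y) = f (x, y))
    (x y : ZMod p) : av U f (x, y) = (Nat.card U : ℚ) * f (x, y) := by
  classical
  rw [av_apply]
  simp only [hf]
  rw [Finset.sum_const, card_univ, nsmul_eq_mul, Nat.card_eq_fintype_card]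

/-- substitution by a matrix after averaging -/
noncomputable def sav (a b c d : ZMod p) : VV p →ₗ[ℚ] VV p :=
  (LinearMap.funLeft ℚ ℚ (mt a b c d)).comp (av U)

lemma sav_apply (a b c d : ZMod p) (f : VV p) (x : XX p) :
    sav U a b c d f x = av U f (a * x.1 + b * x.2, c * x.1 + d * x.2) := rfl

/-- the projection on `VA` -/
noncomputable def PA : VV p →ₗ[ℚ] VV p :=
  (4 * (Nat.card U : ℚ))⁻¹ • (av U - sav U 1 0 0 (-1) + sav U 0 1 1 0 - sav U 0 (-1) 1 0)

/-- the projection on `VB` -/
noncomputable def PB : VV p →ₗ[ℚ] VV p :=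
  (6 * (Nat.card U : ℚ))⁻¹ • (av U + sav U 0 1 (-1) (-1) + sav U (-1) (-1) 1 0 + sav U 0 1 1 0
    + sav U (-1) (-1) 0 1 + sav U 1 0 (-1) (-1))

lemma PA_apply (f : VV p) (x y : ZMod p) : PA U f (x, y) = (4 * (Nat.card U : ℚ))⁻¹ *
    (av U f (x, y) - av U f (x, -y) + av U f (y, x) - av U f (-y, x)) := by
  unfold PA
  simp only [LinearMap.smul_apply, LinearMap.add_apply, LinearMap.sub_apply, Pi.smul_apply,
    Pi.add_apply, Pi.sub_apply, sav_apply, smul_eq_mul, one_mul, zero_mul, add_zero, zero_add,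
    neg_mul]

lemma PB_apply (f : VV p) (x y : ZMod p) : PB U f (x, y) = (6 * (Nat.card U : ℚ))⁻¹ *
    (av U f (x, y) + av U f (y, -x - y) + av U f (-x - y, x) + av U f (y, x)
      + av U f (-x - y, y) + av U f (x, -x - y)) := by
  unfold PB
  simp only [LinearMap.smul_apply, LinearMap.add_apply, Pi.smul_apply,
    Pi.add_apply, sav_apply, smul_eq_mul, one_mul, zero_mul, add_zero, zero_add,
    neg_mul, ← sub_eq_add_neg]

lemma card_U_ne : (Nat.card U : ℚ) ≠ 0 := by
  have : Nat.card U ≠ 0 := Nat.card_pos.ne'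
  exact_mod_cast this

lemma proj_A (hU : (-1 : (ZMod p)ˣ) ∈ U) : LinearMap.IsProj (VA U) (PA U) where
  map_mem f := by
    refine ⟨fun x y => ?_, fun x y => ?_, fun u x y => ?_⟩
    · rw [PA_apply, PA_apply]
      have e1 : av U f (y, -x) = av U f (-y, x) := by
        rw [← av_neg U hU f (-y) x, neg_neg]
      have e2 : av U f (-x, y) = av U f (x, -y) := by
        rw [← av_neg U hU f x (-y), neg_neg]
      rw [e1, e2]; ring
    · rw [PA_apply, PA_apply, neg_neg]; ring
    · rw [PA_apply, PA_apply]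
      have e1 : av U f (cu u * x, -(cu u * y)) = av U f (x, -y) := by
        rw [← av_scale U f u x (-y), mul_neg]
      have e2 : av U f (-(cu u * y), cu u * x) = av U f (-y, x) := by
        rw [← av_scale U f u (-y) x, mul_neg]
      rw [av_scale, e1, av_scale, e2]
  map_id f hf := by
    obtain ⟨h1, h2, h3⟩ := hf
    funext ⟨x, y⟩
    have hn := card_U_ne U
    rw [PA_apply, av_id U h3, av_id U h3, av_id U h3, av_id U h3, h2 x y, h1 x y, h1 x (-y), h2 x y]
    field_simp
    ring

lemma proj_B : LinearMap.IsProj (VB U) (PB U) where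
  map_mem f := by
    refine ⟨fun x y => ?_, fun x y => ?_, fun u x y => ?_⟩
    · rw [PB_apply, PB_apply, show -y - x = -x - y by ring]; ring
    · rw [PB_apply, PB_apply, show -y - (-x - y) = x by ring]; ring
    · rw [PB_apply, PB_apply]
      have e : -(cu u * x) - cu u * y = cu u * (-x - y) := by ring
      rw [e]
      simp only [av_scale]
  map_id f hf := by
    obtain ⟨h1, h2, h3⟩ := hf
    funext ⟨x, y⟩
    have hn := card_U_ne U
    have e1 : f (-x - y, x) = f (x, y) := by
      rw [← h2 x y, ← h2 y (-x - y), show -y - (-x - y) = x by ring]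
    rw [PB_apply, av_id U h3, av_id U h3, av_id U h3, av_id U h3, av_id U h3, av_id U h3, h2 x y,
      e1, h1 x y, h1 y (-x - y), h2 x y, h1 (-x - y) x, e1]
    field_simp
    ring

lemma finrank_A (hp2 : p ≠ 2) (hU : (-1 : (ZMod p)ˣ) ∈ U) :
    (4 * (Nat.card U : ℚ)) * (Module.finrank ℚ (VA U) : ℚ) =
      ((p : ℚ) ^ 2 - 1) - (e2 U : ℚ) * ((p : ℚ) - 1) := by
  have hn := card_U_ne U
  have h0 : (1 : ZMod p) ≠ 0 := one_ne_zero
  have h := LinearMap.IsProj.trace (proj_A U hU)
  have hne : (1 : ZMod p) ≠ -1 := by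
    intro h
    have h2 : ((2 : ℕ) : ZMod p) = 0 := by push_cast; linear_combination h
    rw [ZMod.natCast_eq_zero_iff] at h2
    exact hp2 ((Nat.prime_dvd_prime_iff_eq hp.out Nat.prime_two).mp h2)
  rw [← h]
  unfold PA sav
  rw [map_smul, map_sub, map_add, map_sub, trace_av_one,
    trace_av_ne U 1 0 0 (-1) (Or.inr (Or.inr hne)) (fun u : U => cu u ^ 2 = 1)
      (fun u => ⟨fun h => by linear_combination -h, fun h => by linear_combination -h⟩),
    trace_av_ne U 0 1 1 0 (Or.inl h0) (fun u : U => cu u ^ 2 = 1)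
      (fun u => ⟨fun h => by linear_combination -h, fun h => by linear_combination -h⟩),
    trace_av_ne U 0 (-1) 1 0 (Or.inr (Or.inl h0)) (fun u : U => cu u ^ 2 = -1)
      (fun u => ⟨fun h => by linear_combination h, fun h => by linear_combination h⟩),
    card_sq_one hp2 hU]
  unfold e2
  rw [smul_eq_mul]
  field_simp
  ring

lemma finrank_B (hp2 : p ≠ 2) (hU : (-1 : (ZMod p)ˣ) ∈ U) :
    (6 * (Nat.card U : ℚ)) * (Module.finrank ℚ (VB U) : ℚ) =
      6 * (Nat.card U : ℚ) + ((p : ℚ) ^ 2 - 1) + (2 * (e3 U : ℚ) + 6) * ((p : ℚ) - 1) := by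
  have hn := card_U_ne U
  have h0 : (1 : ZMod p) ≠ 0 := one_ne_zero
  have h0' : (-1 : ZMod p) ≠ 0 := neg_ne_zero.mpr one_ne_zero
  have h := LinearMap.IsProj.trace (proj_B U)
  rw [← h]
  unfold PB sav
  rw [map_smul, map_add, map_add, map_add, map_add, map_add, trace_av_one,
    trace_av_ne U 0 1 (-1) (-1) (Or.inl h0)
      (fun u : U => cu u ^ 2 + cu u + 1 = 0)
      (fun u => ⟨fun h => by linear_combination h, fun h => by linear_combination h⟩),
    trace_av_ne U (-1) (-1) 1 0 (Or.inl h0')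
      (fun u : U => cu u ^ 2 + cu u + 1 = 0)
      (fun u => ⟨fun h => by linear_combination h, fun h => by linear_combination h⟩),
    trace_av_ne U 0 1 1 0 (Or.inl h0) (fun u : U => cu u ^ 2 = 1)
      (fun u => ⟨fun h => by linear_combination -h, fun h => by linear_combination -h⟩),
    trace_av_ne U (-1) (-1) 0 1 (Or.inl h0') (fun u : U => cu u ^ 2 = 1)
      (fun u => ⟨fun h => by linear_combination -h, fun h => by linear_combination -h⟩),
    trace_av_ne U 1 0 (-1) (-1) (Or.inr (Or.inl h0')) (fun u : U => cu u ^ 2 = 1)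
      (fun u => ⟨fun h => by linear_combination -h, fun h => by linear_combination -h⟩),
    card_sq_one hp2 hU]
  unfold e3
  rw [smul_eq_mul]
  field_simp
  ring

end Pool.Agent.K4Rank
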