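import Pool.Agent.Lib_helper66.K4M.RankB

set_option autoImplicit false

/-!
Ranks of Manin symbols at prime level: the bound by the genus.
-/

namespace Pool.Agent.K4Rank

open Finset

variable {p : ℕ} [hp : Fact p.Prime] (U : Subgroup (ZMod p)ˣ)

/-- the rotation of order three -/
def te : XX p ≃ XX p where
  toFun x := (x.2, -x.1 - x.2)
  invFun x := (-x.1 - x.2, x.1)
  left_inv x := by refine Prod.ext ?_ rfl; show -x.2 - (-x.1 - x.2) = x.1; ring
  right_inv x := by refine Prod.ext rfl ?_; show -(-x.1 - x.2) - x.1 = x.2; ring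

/-- the reflection -/
def dd : XX p ≃ XX p where
  toFun x := (x.1, -x.2)
  invFun x := (x.1, -x.2)
  left_inv x := by simp
  right_inv x := by simp

/-- the sum of the three rotations -/
noncomputable def NN : VV p →ₗ[ℚ] VV p :=
  LinearMap.id + LinearMap.funLeft ℚ ℚ (te : XX p → XX p)
    + LinearMap.funLeft ℚ ℚ (te.symm : XX p → XX p)

lemma NN_apply (f : VV p) (x y : ZMod p) :
    NN f (x, y) = f (x, y) + f (y, -x - y) + f (-x - y, x) := rfl

/-- the pairing -/
noncomputable def pai : VV p →ₗ[ℚ] Module.Dual ℚ (VV p) :=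
  LinearMap.mk₂ ℚ (fun f g => ∑ x, f x * g x)
    (fun f g h => by simp only [Pi.add_apply, add_mul, Finset.sum_add_distrib])
    (fun c f g => by simp only [Pi.smul_apply, smul_eq_mul, mul_assoc, Finset.mul_sum])
    (fun f g h => by simp only [Pi.add_apply, mul_add, Finset.sum_add_distrib])
    (fun c f g => by
      simp only [Pi.smul_apply, smul_eq_mul, Finset.mul_sum]
      exact Finset.sum_congr rfl fun x _ => by ring)

lemma pai_apply (f g : VV p) : pai f g = ∑ x, f x * g x := rfl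

lemma pai_NN {f : VV p} (hf : f ∈ VB U) (v : VV p) : pai f (NN v) = 3 * pai f v := by
  obtain ⟨h1, h2, h3⟩ := hf
  have k1 : ∑ x : XX p, f x * v (te x) = ∑ x, f x * v x := by
    rw [← Equiv.sum_comp te (fun x => f x * v x)]
    refine Finset.sum_congr rfl fun x _ => ?_
    have : f (te x) = f x := h2 x.1 x.2
    rw [this]
  have k2 : ∑ x : XX p, f x * v (te.symm x) = ∑ x, f x * v x := by
    rw [← Equiv.sum_comp te.symm (fun x => f x * v x)]
    refine Finset.sum_congr rfl fun x _ => ?_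
    have : f (te.symm x) = f x := by
      have := h2 (te.symm x).1 (te.symm x).2
      rw [← this]
      congr 1
      exact te.apply_symm_apply x
    rw [this]
  have k3 : pai f (NN v) = ∑ x : XX p, f x * v x + ∑ x, f x * v (te x)
      + ∑ x, f x * v (te.symm x) := by
    rw [pai_apply, ← Finset.sum_add_distrib, ← Finset.sum_add_distrib]
    refine Finset.sum_congr rfl fun x _ => ?_
    show f x * (v x + v (te x) + v (te.symm x)) = _
    ring
  rw [k3, k1, k2, pai_apply]; ring

lemma neg_inv (hU : (-1 : (ZMod p)ˣ) ∈ U) {f : VV p}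
    (h : ∀ u : U, ∀ x y, f (cu u * x, cu u * y) = f (x, y)) (x y : ZMod p) :
    f (-x, -y) = f (x, y) := by
  have h2 : cu (⟨-1, hU⟩ : U) = -1 := by
    show (((-1 : (ZMod p)ˣ)) : ZMod p) = -1
    rw [Units.val_neg, Units.val_one]
  rw [← h ⟨-1, hU⟩ x y, h2, neg_one_mul, neg_one_mul]

/-- orthogonality to the image implies the last symmetry -/
lemma last_sym (hU : (-1 : (ZMod p)ˣ) ∈ U) {f : VV p} (hf : f ∈ VB U)
    (h0 : ∀ v ∈ VA U, pai f (NN v) = 0) (x y : ZMod p) : f (x, -y) = f (x, y) := by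
  obtain ⟨h1, h2, h3⟩ := id hf
  have hn := neg_inv U hU h3
  have hv : (f - LinearMap.funLeft ℚ ℚ (dd : XX p → XX p) f) ∈ VA U := by
    refine ⟨fun x y => ?_, fun x y => ?_, fun u x y => ?_⟩
    · show f (y, x) - f (y, -x) = f (x, y) - f (x, -y)
      rw [h1 x y, h1 (-x) y, ← hn (-x) y, neg_neg]
    · show f (x, -y) - f (x, - -y) = -(f (x, y) - f (x, -y))
      rw [neg_neg]; ring
    · show f (cu u * x, cu u * y) - f (cu u * x, -(cu u * y)) = f (x, y) - f (x, -y)
      rw [h3, ← mul_neg, h3]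
  have e1 := h0 _ hv
  rw [pai_NN U hf] at e1
  have e2 : ∑ x : XX p, f x * (f x - f (dd x)) = 0 := by
    have : pai f (f - LinearMap.funLeft ℚ ℚ (dd : XX p → XX p) f) = 0 := by linarith
    exact this
  have e3 : ∑ x : XX p, f (dd x) * (f (dd x) - f x) = 0 := by
    rw [← e2, ← Equiv.sum_comp dd (fun x => f x * (f x - f (dd x)))]
    refine Finset.sum_congr rfl fun x _ => ?_
    have : dd (dd x) = x := dd.left_inv x
    rw [this]
  have e4 : ∑ x : XX p, (f x - f (dd x)) ^ 2 = 0 := by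
    have : ∑ x : XX p, (f x - f (dd x)) ^ 2 =
        ∑ x : XX p, f x * (f x - f (dd x)) + ∑ x : XX p, f (dd x) * (f (dd x) - f x) := by
      rw [← Finset.sum_add_distrib]
      exact Finset.sum_congr rfl fun x _ => by ring
    rw [this, e2, e3, add_zero]
  have e5 := (Finset.sum_eq_zero_iff_of_nonneg (fun x _ => sq_nonneg (f x - f (dd x)))).mp e4
    (x, y) (mem_univ _)
  have e6 : f (x, y) - f (x, -y) = 0 := by
    have := pow_eq_zero_iff (n := 2) (by norm_num) |>.mp e5
    exact this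
  linarith

/-- functions with all symmetries are constant off the origin -/
lemma const_of {f : VV p} (h1 : ∀ x y, f (y, x) = f (x, y)) (h2 : ∀ x y, f (y, -x - y) = f (x, y))
    (h3 : ∀ x y, f (x, -y) = f (x, y)) (x y : ZMod p) (h : x ≠ 0 ∨ y ≠ 0) :
    f (x, y) = f (1, 1) := by
  have g1 : ∀ x y, f (x, x + y) = f (x, y) := by
    intro x y
    rw [← h3 x (x + y), ← h1 x y, ← h2 y x]
    congr 2; ring
  have g2 : ∀ (n : ℕ) x y, f (x, n * x + y) = f (x, y) := by
    intro n
    induction n with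
    | zero => intro x y; simp
    | succ n ih =>
      intro x y
      rw [← ih x y, ← g1 x (n * x + y)]
      congr 2; push_cast; ring
  have g3 : ∀ x y, x ≠ 0 → f (x, y) = f (x, 0) := by
    intro x y hx
    rw [← g2 (y / x).val x 0, ZMod.natCast_zmod_val]
    congr 2
    field_simp
    ring
  have g4 : ∀ x, x ≠ 0 → f (x, 0) = f (1, 1) := by
    intro x hx
    rw [← g3 x 1 hx, h1 1 x, g3 1 x one_ne_zero, g3 1 1 one_ne_zero]
  rcases h with h | h
  · rw [g3 x y h, g4 x h]
  · rw [h1 y x, g3 y x h, g4 y h]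

/-- the norm on `VA` -/
noncomputable def NA : VA U →ₗ[ℚ] VV p := NN.comp (VA U).subtype

/-- the pairing of `VB` with the image of the norm -/
noncomputable def PI : VB U →ₗ[ℚ] Module.Dual ℚ (LinearMap.range (NA U)) :=
  (LinearMap.range (NA U)).dualRestrict ∘ₗ pai ∘ₗ (VB U).subtype

lemma ker_PI (hU : (-1 : (ZMod p)ˣ) ∈ U) : Module.finrank ℚ (LinearMap.ker (PI U)) ≤ 2 := by
  let ev : LinearMap.ker (PI U) →ₗ[ℚ] ℚ × ℚ :=
    ((LinearMap.proj (R := ℚ) (φ := fun _ : XX p => ℚ) (0, 0)).prod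
      (LinearMap.proj (R := ℚ) (φ := fun _ : XX p => ℚ) (1, 1))) ∘ₗ (VB U).subtype ∘ₗ
        (LinearMap.ker (PI U)).subtype
  have hsym : ∀ (f : VV p) (hf : f ∈ VB U), (⟨f, hf⟩ : VB U) ∈ LinearMap.ker (PI U) →
      ∀ x y, f (x, -y) = f (x, y) := by
    intro f hf hk
    refine last_sym U hU hf fun v hv => ?_
    have h1 := LinearMap.mem_ker.mp hk
    exact LinearMap.congr_fun h1 ⟨NN v, ⟨⟨v, hv⟩, rfl⟩⟩
  have hinj : Function.Injective ev := by
    rintro ⟨⟨f, hf⟩, hk⟩ ⟨⟨f', hf'⟩, hk'⟩ h0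
    have a0 : f (0, 0) = f' (0, 0) := (Prod.ext_iff.mp h0).1
    have a1 : f (1, 1) = f' (1, 1) := (Prod.ext_iff.mp h0).2
    refine Subtype.ext (Subtype.ext ?_)
    funext ⟨x, y⟩
    show f (x, y) = f' (x, y)
    by_cases h : x ≠ 0 ∨ y ≠ 0
    · rw [const_of hf.1 hf.2.1 (hsym f hf hk) x y h, const_of hf'.1 hf'.2.1 (hsym f' hf' hk') x y h,
        a1]
    · push Not at h
      rw [h.1, h.2, a0]
  have := LinearMap.finrank_le_finrank_of_injective hinj
  simpa using this

lemma rank_NA (hU : (-1 : (ZMod p)ˣ) ∈ U) :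
    Module.finrank ℚ (VB U) ≤ 2 + Module.finrank ℚ (LinearMap.range (NA U)) := by
  have h1 := LinearMap.finrank_range_add_finrank_ker (PI U)
  have h2 : Module.finrank ℚ (LinearMap.range (PI U)) ≤
      Module.finrank ℚ (Module.Dual ℚ (LinearMap.range (NA U))) := Submodule.finrank_le _
  rw [Subspace.dual_finrank_eq] at h2
  have h3 := ker_PI U hU
  omega

section Span

variable {H : Type*} [AddCommGroup H] [Module ℚ H] (e : ZMod p → ZMod p → H)

/-- the span of the symbols -/
def SP : Submodule ℚ H := Submodule.span ℚ (Set.range fun x : XX p => e x.1 x.2)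

instance : Module.Finite ℚ (SP e) := by
  unfold SP
  exact Module.Finite.span_of_finite ℚ (Set.finite_range _)

/-- the symbol as an element of the span -/
def es (x : XX p) : SP e := ⟨e x.1 x.2, Submodule.subset_span ⟨x, rfl⟩⟩

/-- functionals as functions -/
noncomputable def Ps : Module.Dual ℚ (SP e) →ₗ[ℚ] VV p where
  toFun φ := fun x => φ (es e x)
  map_add' _ _ := rfl
  map_smul' _ _ := rfl

omit hp in
lemma Ps_inj : Function.Injective (Ps e) := by
  rw [← LinearMap.ker_eq_bot, LinearMap.ker_eq_bot']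
  intro φ h
  refine LinearMap.ext fun z => ?_
  obtain ⟨z, hz⟩ := z
  have key : ∀ (z : H) (hz : z ∈ SP e), φ ⟨z, hz⟩ = 0 := by
    intro z hz
    induction hz using Submodule.span_induction with
    | mem x hx =>
      obtain ⟨y, rfl⟩ := hx
      exact congrFun h y
    | zero => exact map_zero φ
    | add x y hx hy h1 h2 =>
      have : (⟨x + y, (SP e).add_mem hx hy⟩ : SP e) = ⟨x, hx⟩ + ⟨y, hy⟩ := rfl
      rw [this, map_add, h1, h2, add_zero]
    | smul c x hx h1 =>
      have : (⟨c • x, (SP e).smul_mem c hx⟩ : SP e) = c • ⟨x, hx⟩ := rfl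
      rw [this, map_smul, h1, smul_zero]
  exact key z hz

/-- **The rank of Manin symbols at prime level.** -/
theorem rank_le (hp2 : p ≠ 2) (hU : (-1 : (ZMod p)ˣ) ∈ U)
    (sym : ∀ x y, e y x = e x y) (par : ∀ x y, e x (-y) = - e x y)
    (tri : ∀ x y, e x y + e y (-x - y) + e (-x - y) x = 0)
    (uni : ∀ u : U, ∀ x y, e (cu u * x) (cu u * y) = e x y) :
    (Module.finrank ℚ (SP e) : ℚ) ≤
      1 + ((p : ℚ) - 1) * (p - 11 - 3 * e2 U - 4 * e3 U) / (12 * Nat.card U) := by
  have hA : ∀ φ, Ps e φ ∈ VA U := by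
    intro φ
    refine ⟨fun x y => ?_, fun x y => ?_, fun u x y => ?_⟩
    · show φ (es e (y, x)) = φ (es e (x, y))
      congr 1
      exact Subtype.ext (sym x y)
    · show φ (es e (x, -y)) = - φ (es e (x, y))
      rw [← map_neg]
      congr 1
      exact Subtype.ext (par x y)
    · show φ (es e (cu u * x, cu u * y)) = φ (es e (x, y))
      congr 1
      exact Subtype.ext (uni u x y)
  let Q1 : Module.Dual ℚ (SP e) →ₗ[ℚ] VA U := (Ps e).codRestrict (VA U) hA
  have hK : ∀ φ, Q1 φ ∈ LinearMap.ker (NA U) := by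
    intro φ
    rw [LinearMap.mem_ker]
    funext ⟨x, y⟩
    show φ (es e (x, y)) + φ (es e (y, -x - y)) + φ (es e (-x - y, x)) = 0
    rw [← map_add, ← map_add]
    have : es e (x, y) + es e (y, -x - y) + es e (-x - y, x) = 0 := Subtype.ext (tri x y)
    rw [this, map_zero]
  let Q2 : Module.Dual ℚ (SP e) →ₗ[ℚ] LinearMap.ker (NA U) := Q1.codRestrict _ hK
  have hinj : Function.Injective Q2 := by
    intro φ ψ h
    apply Ps_inj e
    exact congrArg (fun z : LinearMap.ker (NA U) => ((z : VA U) : VV p)) h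
  have h1 := LinearMap.finrank_le_finrank_of_injective hinj
  rw [Subspace.dual_finrank_eq] at h1
  have h2 := LinearMap.finrank_range_add_finrank_ker (NA U)
  have h3 := rank_NA U hU
  have h4 : Module.finrank ℚ (SP e) + Module.finrank ℚ (VB U) ≤
      Module.finrank ℚ (VA U) + 2 := by omega
  have h5 : (Module.finrank ℚ (SP e) : ℚ) + (Module.finrank ℚ (VB U) : ℚ) ≤
      (Module.finrank ℚ (VA U) : ℚ) + 2 := by exact_mod_cast h4
  have hA' := finrank_A U hp2 hU
  have hB' := finrank_B U hp2 hU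
  have hn : (0 : ℚ) < Nat.card U := by
    have : 0 < Nat.card U := Nat.card_pos
    exact_mod_cast this
  rw [← sub_le_iff_le_add', le_div_iff₀ (by positivity)]
  nlinarith [mul_le_mul_of_nonneg_left h5 hn.le]

end Span

end Pool.Agent.K4Rank
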