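import Pool.Agent.Lib_helper66.K4M.RankC
import Pool.Agent.Lib_helper2.K4.DefsL

set_option autoImplicit false

/-!
Ranks of Manin symbols at prime level: the bounds by the genera of `X_1(p)`, `X_0(p)` and of the
curves between them.
-/

namespace Pool.Agent.MK4

open Finset Pool.Agent.K4Rank

variable {A B : Type*} [AddCommGroup A] [AddCommGroup B]

/-- For every prime `p ≥ 5` the `ξ(aP,bP)`, `pP = 0`, span a space of dimension at most
`(p-5)(p-7)/24`. -/
def RankBound [Module ℚ B] (ξ : A → A → B) : Prop :=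
  ∀ p : ℕ, p.Prime → 5 ≤ p → ∀ P : A, p • P = 0 →
    24 * Module.finrank ℚ (Submodule.span ℚ {y : B | ∃ a b : ℤ, y = ξ (a • P) (b • P)}) ≤
      (p - 5) * (p - 7)

/-- For every prime `p ≥ 5` the traces `∑_{u mod p} ξ(uP,ucP)`, `pP = 0`, span a space of dimension
at most the genus of `X_0(p)`. -/
def TraceBound [Module ℚ B] (ξ : A → A → B) : Prop :=
  ∀ p : ℕ, p.Prime → 5 ≤ p → ∀ P : A, p • P = 0 →
    12 * Module.finrank ℚ (Submodule.span ℚ {y : B | ∃ c : ℤ, y = trace ξ p P c}) +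
      3 * Nat.card {x : ZMod p // x ^ 2 + 1 = 0} + 4 * Nat.card {x : ZMod p // x ^ 2 + x + 1 = 0}
      ≤ p + 1

section Hom

/-- The homomorphism attached to a point killed by `N`. -/
lemma rk_hom (N : ℕ) (P : A) (hP : N • P = 0) :
    ∃ f : ZMod N →+ A, ∀ k : ℤ, f (k : ZMod N) = k • P := by
  have h0 : (zmultiplesHom A P) (N : ℤ) = 0 := by
    simpa using hP
  exact ⟨ZMod.lift N ⟨zmultiplesHom A P, h0⟩, fun k => by simp⟩

lemma rk_val {p : ℕ} [NeZero p] {P : A} {f : ZMod p →+ A}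
    (hf : ∀ k : ℤ, f (k : ZMod p) = k • P) (u : ZMod p) (a : ℤ) :
    ((u.val * a : ℤ) • P) = f (u * (a : ZMod p)) := by
  rw [← hf]
  push_cast
  rw [ZMod.natCast_zmod_val]

lemma rk_vl {p : ℕ} [Fact p.Prime] {P : A} {f : ZMod p →+ A}
    (hf : ∀ k : ℤ, f (k : ZMod p) = k • P) {U : Subgroup (ZMod p)ˣ} (u : U) (a : ℤ) :
    ((vl u * a : ℤ) • P) = f (cu u * (a : ZMod p)) := rk_val hf (cu u) a

end Hom

/-- elements of order four -/
lemma card_four {p : ℕ} [hp : Fact p.Prime] (hp2 : p ≠ 2) (U : Subgroup (ZMod p)ˣ) :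
    Nat.card {u : U // orderOf u = 4} = e2 U := by
  unfold e2
  refine Nat.card_congr (Equiv.subtypeEquivRight fun u => ?_)
  have hone : (1 : ZMod p) ≠ -1 := by
    intro h'
    have h2 : ((2 : ℕ) : ZMod p) = 0 := by push_cast; linear_combination h'
    rw [ZMod.natCast_eq_zero_iff] at h2
    exact hp2 ((Nat.prime_dvd_prime_iff_eq hp.out Nat.prime_two).mp h2)
  have hcu : ∀ n : ℕ, u ^ n = 1 ↔ cu u ^ n = 1 := by
    intro n
    constructor
    · intro h
      have h1 := congrArg (fun v : U => cu v) h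
      exact h1
    · intro h
      exact Subtype.ext (Units.ext h)
  constructor
  · intro h
    have h4 : cu u ^ 4 = 1 := (hcu 4).mp (by rw [← h]; exact pow_orderOf_eq_one u)
    have h5 : (cu u ^ 2 - 1) * (cu u ^ 2 + 1) = 0 := by linear_combination h4
    rcases mul_eq_zero.mp h5 with h6 | h6
    · have h7 : u ^ 2 = 1 := (hcu 2).mpr (by linear_combination h6)
      have h8 := orderOf_dvd_of_pow_eq_one h7
      rw [h] at h8
      omega
    · linear_combination h6
  · intro h
    have h1 : ¬ u ^ 2 ^ 1 = 1 := by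
      intro h2
      have h3 := (hcu (2 ^ 1)).mp h2
      simp only [pow_one] at h3
      rw [h] at h3
      exact hone h3.symm
    have h2 : u ^ 2 ^ (1 + 1) = 1 := by
      rw [hcu]
      have : cu u ^ 2 ^ (1 + 1) = (cu u ^ 2) ^ 2 := by ring
      rw [this, h]; ring
    exact orderOf_eq_prime_pow h1 h2

/-- elements of order three -/
lemma card_three {p : ℕ} [hp : Fact p.Prime] (hp3 : p ≠ 3) (U : Subgroup (ZMod p)ˣ) :
    Nat.card {u : U // orderOf u = 3} = e3 U := by
  unfold e3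
  refine Nat.card_congr (Equiv.subtypeEquivRight fun u => ?_)
  have hcu : ∀ n : ℕ, u ^ n = 1 ↔ cu u ^ n = 1 := by
    intro n
    constructor
    · intro h
      have h1 := congrArg (fun v : U => cu v) h
      exact h1
    · intro h
      exact Subtype.ext (Units.ext h)
  constructor
  · intro h
    have h4 : cu u ^ 3 = 1 := (hcu 3).mp (by rw [← h]; exact pow_orderOf_eq_one u)
    have h5 : (cu u - 1) * (cu u ^ 2 + cu u + 1) = 0 := by linear_combination h4
    rcases mul_eq_zero.mp h5 with h6 | h6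
    · have h7 : u ^ 1 = 1 := (hcu 1).mpr (by linear_combination h6)
      have h8 := orderOf_dvd_of_pow_eq_one h7
      rw [h] at h8
      omega
    · exact h6
  · intro h
    apply orderOf_eq_prime
    · rw [hcu]
      linear_combination (cu u - 1) * h
    · intro h1
      have h2 : cu u ^ 1 = 1 := (hcu 1).mp (by rw [h1, pow_one])
      rw [pow_one] at h2
      rw [h2] at h
      have h3 : ((3 : ℕ) : ZMod p) = 0 := by push_cast; linear_combination h
      rw [ZMod.natCast_eq_zero_iff] at h3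
      exact hp3 ((Nat.prime_dvd_prime_iff_eq hp.out Nat.prime_three).mp h3)

variable [Module ℚ B] {ξ : A → A → B}

omit [Module ℚ B] in
lemma manin_nn (h : Manin ξ) (a b : A) : ξ (-a) (-b) = ξ a b := by
  rw [h.par, h.sym, h.par, neg_neg, h.sym]

lemma manin_zero (h : Manin ξ) (a : A) : ξ a 0 = 0 := by
  have h1 := h.par a 0
  rw [neg_zero] at h1
  have h2 : (2 : ℚ) • ξ a 0 = 0 := by rw [two_smul]; nth_rw 1 [h1]; abel
  exact (smul_eq_zero.mp h2).resolve_left (by norm_num)

/-- the traces as a function on vectors modulo `p` -/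
noncomputable def eU {p : ℕ} [Fact p.Prime] (ξ : A → A → B) (f : ZMod p →+ A)
    (U : Subgroup (ZMod p)ˣ) (x y : ZMod p) : B :=
  ∑ᶠ u : U, ξ (f (cu u * x)) (f (cu u * y))

lemma eU_rank {p : ℕ} [hp : Fact p.Prime] (h : Manin ξ) (hp2 : p ≠ 2) (f : ZMod p →+ A)
    (U : Subgroup (ZMod p)ˣ) (hU : -1 ∈ U) :
    (Module.finrank ℚ (SP (eU ξ f U)) : ℚ) ≤
      1 + ((p : ℚ) - 1) * (p - 11 - 3 * e2 U - 4 * e3 U) / (12 * Nat.card U) := by
  classical
  have e : ∀ x y, eU ξ f U x y = ∑ u : U, ξ (f (cu u * x)) (f (cu u * y)) := by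
    intro x y
    unfold eU
    rw [finsum_eq_sum_of_fintype]
  refine rank_le U (eU ξ f U) hp2 hU ?_ ?_ ?_ ?_
  · intro x y
    rw [e, e]
    exact Finset.sum_congr rfl fun u _ => h.sym _ _
  · intro x y
    rw [e, e, ← Finset.sum_neg_distrib]
    exact Finset.sum_congr rfl fun u _ => by rw [mul_neg, map_neg, h.par]
  · intro x y
    rw [e, e, e, ← Finset.sum_add_distrib, ← Finset.sum_add_distrib]
    refine Finset.sum_eq_zero fun u _ => h.tri _ _ _ ?_
    rw [← map_add, ← map_add, show cu u * x + cu u * y + cu u * (-x - y) = 0 by ring, map_zero]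
  · intro v x y
    rw [e, e]
    conv_rhs => rw [← Equiv.sum_comp (Equiv.mulRight v)]
    refine Finset.sum_congr rfl fun u _ => ?_
    have h1 : cu (u * v) = cu u * cu v := rfl
    rw [Equiv.coe_mulRight, h1, mul_assoc, mul_assoc]

theorem genusBound_of_manin (h : Manin ξ) : GenusBound ξ := by
  intro p hp h5 U hU P hP
  have : Fact p.Prime := ⟨hp⟩
  obtain ⟨f, hf⟩ := rk_hom p P hP
  have key := eU_rank h (by omega) f U hU
  have e : {y : B | ∃ a b : ℤ, y =
      ∑ᶠ u : U, ξ ((vl u * a : ℤ) • P) ((vl u * b : ℤ) • P)} =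
      Set.range fun x : XX p => eU ξ f U x.1 x.2 := by
    ext y
    constructor
    · rintro ⟨a, b, rfl⟩
      refine ⟨((a : ZMod p), (b : ZMod p)), ?_⟩
      unfold eU
      refine finsum_congr fun u => ?_
      rw [rk_vl hf, rk_vl hf]
    · rintro ⟨⟨x, y⟩, rfl⟩
      obtain ⟨a, rfl⟩ := ZMod.intCast_surjective x
      obtain ⟨b, rfl⟩ := ZMod.intCast_surjective y
      refine ⟨a, b, ?_⟩
      unfold eU
      refine finsum_congr fun u => ?_
      rw [rk_vl hf, rk_vl hf]
  rw [e, card_four (by omega) U, card_three (by omega) U]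
  exact key

theorem rankBound_of_manin (h : Manin ξ) : RankBound ξ := by
  classical
  intro p hp h5 P hP
  have : Fact p.Prime := ⟨hp⟩
  obtain ⟨f, hf⟩ := rk_hom p P hP
  have hp2 : p ≠ 2 := by omega
  let U : Subgroup (ZMod p)ˣ := Subgroup.zpowers (-1)
  have hU : -1 ∈ U := Subgroup.mem_zpowers _
  have hmem : ∀ u : U, cu u = 1 ∨ cu u = -1 := by
    rintro ⟨u, hu⟩
    obtain ⟨k, rfl⟩ := Subgroup.mem_zpowers_iff.mp hu
    rcases Int.even_or_odd k with hk | hk
    · left
      show (((-1 : (ZMod p)ˣ) ^ k : (ZMod p)ˣ) : ZMod p) = 1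
      rw [hk.neg_one_zpow]; rfl
    · right
      show (((-1 : (ZMod p)ˣ) ^ k : (ZMod p)ˣ) : ZMod p) = -1
      rw [hk.neg_one_zpow]; rfl
  have h1 := rank_le U (fun x y => ξ (f x) (f y)) hp2 hU (fun x y => h.sym _ _)
    (fun x y => by show ξ (f x) (f (-y)) = - ξ (f x) (f y); rw [map_neg, h.par])
    (fun x y => h.tri _ _ _ (by
      rw [← map_add, ← map_add, show x + y + (-x - y) = 0 by ring, map_zero]))
    (fun u x y => by
      show ξ (f (cu u * x)) (f (cu u * y)) = ξ (f x) (f y)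
      rcases hmem u with hu | hu
      · rw [hu, one_mul, one_mul]
      · rw [hu, neg_one_mul, neg_one_mul, map_neg, map_neg, manin_nn h])
  have e : {y : B | ∃ a b : ℤ, y = ξ (a • P) (b • P)} =
      Set.range fun x : XX p => ξ (f x.1) (f x.2) := by
    ext y
    constructor
    · rintro ⟨a, b, rfl⟩
      exact ⟨((a : ZMod p), (b : ZMod p)), by simp only [hf]⟩
    · rintro ⟨⟨x, y⟩, rfl⟩
      obtain ⟨a, rfl⟩ := ZMod.intCast_surjective x
      obtain ⟨b, rfl⟩ := ZMod.intCast_surjective y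
      exact ⟨a, b, by simp only [hf]⟩
  have hone : (1 : ZMod p) ≠ -1 := by
    intro h'
    have h2 : ((2 : ℕ) : ZMod p) = 0 := by push_cast; linear_combination h'
    rw [ZMod.natCast_eq_zero_iff] at h2
    exact hp2 ((Nat.prime_dvd_prime_iff_eq hp Nat.prime_two).mp h2)
  have hcard : Nat.card U = 2 := by
    rw [Nat.card_zpowers]
    rw [orderOf_eq_prime_iff]
    refine ⟨by simp, fun h' => hone ?_⟩
    have := congrArg (fun u : (ZMod p)ˣ => (u : ZMod p)) h'
    simp only [Units.val_neg, Units.val_one] at this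
    exact this.symm
  have he2 : e2 U = 0 := by
    unfold e2
    rw [Nat.card_eq_zero]
    left
    refine ⟨fun ⟨u, hu⟩ => hone ?_⟩
    rcases hmem u with h' | h' <;> rw [h'] at hu
    · linear_combination hu
    · linear_combination hu
  have he3 : e3 U = 0 := by
    unfold e3
    rw [Nat.card_eq_zero]
    left
    refine ⟨fun ⟨u, hu⟩ => ?_⟩
    rcases hmem u with h' | h' <;> rw [h'] at hu
    · have h2 : ((3 : ℕ) : ZMod p) = 0 := by push_cast; linear_combination hu
      rw [ZMod.natCast_eq_zero_iff] at h2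
      have := (Nat.prime_dvd_prime_iff_eq hp Nat.prime_three).mp h2
      omega
    · have h2 : (1 : ZMod p) = 0 := by linear_combination hu
      exact one_ne_zero h2
  rw [e]
  show 24 * Module.finrank ℚ (SP (fun x y => ξ (f x) (f y))) ≤ (p - 5) * (p - 7)
  rw [he2, he3, hcard] at h1
  push_cast at h1
  have h2 : (24 : ℚ) * (Module.finrank ℚ (SP (fun x y => ξ (f x) (f y))) : ℚ) ≤
      ((p : ℚ) - 5) * ((p : ℚ) - 7) := by linarith
  rcases Nat.lt_or_ge p 7 with h7 | h7
  · have hp5 : p = 5 := by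
      interval_cases p
      · rfl
      · exact absurd hp (by norm_num)
    have hpq : (p : ℚ) = 5 := by exact_mod_cast hp5
    rw [hpq] at h2
    have h3 : (Module.finrank ℚ (SP (fun x y => ξ (f x) (f y))) : ℚ) ≤ 0 := by linarith
    have h4 : Module.finrank ℚ (SP (fun x y => ξ (f x) (f y))) = 0 := by
      have : Module.finrank ℚ (SP (fun x y => ξ (f x) (f y))) ≤ 0 := by exact_mod_cast h3
      omega
    rw [h4]
    simp
  · have : (((p - 5) * (p - 7) : ℕ) : ℚ) = ((p : ℚ) - 5) * ((p : ℚ) - 7) := by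
      rw [Nat.cast_mul, Nat.cast_sub h5, Nat.cast_sub h7]; norm_num
    rw [← this] at h2
    exact_mod_cast h2

lemma card_top {p : ℕ} [hp : Fact p.Prime] (Q : ZMod p → Prop) (h0 : ¬ Q 0) :
    Nat.card {u : (⊤ : Subgroup (ZMod p)ˣ) // Q (cu u)} = Nat.card {x : ZMod p // Q x} := by
  refine Nat.card_eq_of_bijective (fun u => ⟨cu u.1, u.2⟩) ⟨?_, ?_⟩
  · intro u v h
    have h1 : cu u.1 = cu v.1 := congrArg Subtype.val h
    exact Subtype.ext (Subtype.ext (Units.ext h1))
  · rintro ⟨x, hx⟩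
    have hx0 : x ≠ 0 := by rintro rfl; exact h0 hx
    exact ⟨⟨⟨Units.mk0 x hx0, Subgroup.mem_top _⟩, hx⟩, rfl⟩

omit [Module ℚ B] in
lemma sum_top {p : ℕ} [hp : Fact p.Prime] (F : ZMod p → B) (h0 : F 0 = 0) :
    ∑ u ∈ Finset.range p, F (u : ZMod p) = ∑ᶠ u : (⊤ : Subgroup (ZMod p)ˣ), F (cu u) := by
  classical
  rw [finsum_eq_sum_of_fintype]
  have e1 : ∑ u ∈ Finset.range p, F (u : ZMod p) = ∑ x : ZMod p, F x := by
    refine Finset.sum_nbij' (fun u => (u : ZMod p)) (fun x => x.val) ?_ ?_ ?_ ?_ ?_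
    · intro u _; exact mem_univ _
    · intro x _; exact Finset.mem_range.mpr (ZMod.val_lt x)
    · intro u hu; exact ZMod.val_cast_of_lt (Finset.mem_range.mp hu)
    · intro x _; exact ZMod.natCast_zmod_val x
    · intro u _; rfl
  have e2 : ∑ x : ZMod p, F x = ∑ x ∈ univ.filter (fun x : ZMod p => x ≠ 0), F x := by
    rw [Finset.sum_filter]
    refine Finset.sum_congr rfl fun x _ => ?_
    by_cases hx : x = 0
    · subst hx; simp [h0]
    · simp [hx]
  rw [e1, e2]
  symm
  refine Finset.sum_nbij (fun u : (⊤ : Subgroup (ZMod p)ˣ) => cu u) ?_ ?_ ?_ ?_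
  · intro u _
    exact Finset.mem_filter.mpr ⟨mem_univ _, Units.ne_zero _⟩
  · intro u _ v _ h
    exact Subtype.ext (Units.ext h)
  · intro x hx
    have hx0 : x ≠ 0 := (Finset.mem_filter.mp (Finset.mem_coe.mp hx)).2
    exact ⟨⟨Units.mk0 x hx0, Subgroup.mem_top _⟩, mem_coe.mpr (mem_univ _), rfl⟩
  · intro u _; rfl

theorem traceBound_of_manin (h : Manin ξ) : TraceBound ξ := by
  classical
  intro p hp h5 P hP
  have : Fact p.Prime := ⟨hp⟩
  obtain ⟨f, hf⟩ := rk_hom p P hP
  have hp2 : p ≠ 2 := by omega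
  have key := eU_rank h hp2 f ⊤ (Subgroup.mem_top _)
  have hsub : Submodule.span ℚ {y : B | ∃ c : ℤ, y = trace ξ p P c} ≤ SP (eU ξ f ⊤) := by
    rw [Submodule.span_le]
    rintro _ ⟨c, rfl⟩
    have e : trace ξ p P c = eU ξ f ⊤ 1 (c : ZMod p) := by
      unfold eU trace
      have e1 : ∀ u ∈ Finset.range p, ξ ((u : ℤ) • P) ((u * c : ℤ) • P) =
          ξ (f (u : ZMod p)) (f ((u : ZMod p) * (c : ZMod p))) := by
        intro u _
        rw [← hf, ← hf]
        push_cast
        rfl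
      rw [Finset.sum_congr rfl e1, sum_top (fun x : ZMod p => ξ (f x) (f (x * (c : ZMod p))))
        (by simp only [zero_mul, map_zero]; exact manin_zero h 0)]
      refine finsum_congr fun u => ?_
      rw [mul_one]
    rw [e]
    exact Submodule.subset_span ⟨(1, (c : ZMod p)), rfl⟩
  have hle : Module.finrank ℚ (Submodule.span ℚ {y : B | ∃ c : ℤ, y = trace ξ p P c}) ≤
      Module.finrank ℚ (SP (eU ξ f ⊤)) :=
    LinearMap.finrank_le_finrank_of_injective (Submodule.inclusion_injective hsub)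
  have c2 : e2 (⊤ : Subgroup (ZMod p)ˣ) = Nat.card {x : ZMod p // x ^ 2 + 1 = 0} := by
    rw [← card_top (fun x : ZMod p => x ^ 2 + 1 = 0) (by simp)]
    unfold e2
    refine Nat.card_congr (Equiv.subtypeEquivRight fun u => ?_)
    constructor
    · intro h; linear_combination h
    · intro h; linear_combination h
  have c3 : e3 (⊤ : Subgroup (ZMod p)ˣ) = Nat.card {x : ZMod p // x ^ 2 + x + 1 = 0} := by
    rw [← card_top (fun x : ZMod p => x ^ 2 + x + 1 = 0) (by simp)]
    rfl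
  have cn : Nat.card (⊤ : Subgroup (ZMod p)ˣ) = p - 1 := by
    rw [Subgroup.card_top, Nat.card_eq_fintype_card, ZMod.card_units]
  rw [c2, c3, cn, Nat.cast_sub (by omega)] at key
  have hp1 : (p : ℚ) - 1 ≠ 0 := by
    have : (5 : ℚ) ≤ p := by exact_mod_cast h5
    linarith
  have hle' : (Module.finrank ℚ (Submodule.span ℚ {y : B | ∃ c : ℤ, y = trace ξ p P c}) : ℚ) ≤
      (Module.finrank ℚ (SP (eU ξ f ⊤)) : ℚ) := by exact_mod_cast hle
  have h2 : (12 : ℚ) * (Module.finrank ℚ (Submodule.span ℚ {y : B | ∃ c : ℤ, y = trace ξ p P c})) +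
      3 * Nat.card {x : ZMod p // x ^ 2 + 1 = 0} + 4 * Nat.card {x : ZMod p // x ^ 2 + x + 1 = 0}
      ≤ p + 1 := by
    have h3 := hle'.trans key
    have h4 : ((p : ℚ) - 1) * (p - 11 - 3 * (Nat.card {x : ZMod p // x ^ 2 + 1 = 0} : ℚ)
        - 4 * (Nat.card {x : ZMod p // x ^ 2 + x + 1 = 0} : ℚ)) / (12 * ((p : ℚ) - (1 : ℕ))) =
        (p - 11 - 3 * (Nat.card {x : ZMod p // x ^ 2 + 1 = 0} : ℚ)
        - 4 * (Nat.card {x : ZMod p // x ^ 2 + x + 1 = 0} : ℚ)) / 12 := by
      push_cast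
      field_simp
    rw [h4] at h3
    linarith
  exact_mod_cast h2

end Pool.Agent.MK4
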